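import Pool.Agent.NH18.QP.B1

/-! Primes `≡ 3 mod 8` with conditions modulo squarefree odd numbers. -/

set_option autoImplicit false

namespace Pool.Agent.NH18.AU

open Finset
open Pool.Agent.H373R2.T7
open Pool.Agent.H442R2.KF (piN piAP Er)
open Pool.Agent.NH18.QP (worst)

open Classical in
/-- the reduced classes with the conditions -/
noncomputable def RS8 (Q : ℕ → ℕ → Prop) (S : Finset ℕ) : Finset ℕ :=
  (range (8 * ∏ p ∈ S, p)).filter (fun b => b ≡ 3 [MOD 8] ∧ ∀ p ∈ S, ¬ p ∣ b ∧ Q p b)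

open Classical in
/-- the number of the primes `≤ y`, `≡ 3 mod 8`, with the conditions -/
noncomputable def cnt8 (Q : ℕ → ℕ → Prop) (y : ℕ) (S : Finset ℕ) : ℕ :=
  ((Icc 1 y).filter (fun n : ℕ => n.Prime ∧ n ≡ 3 [MOD 8] ∧ ∀ p ∈ S, ¬ p ∣ n ∧ Q p n)).card

lemma not_dvd_eight {p : ℕ} (hp : p.Prime) (h2 : p ≠ 2) : ¬ p ∣ 8 := by
  intro hd
  have h1 : p ∣ 2 ^ 3 := by norm_num; exact hd
  exact h2 ((Nat.prime_dvd_prime_iff_eq hp Nat.prime_two).1 (hp.dvd_of_dvd_pow h1))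

lemma RS8_card (Q : ℕ → ℕ → Prop) {c : ℕ} (hQ : PerA Q c) (S : Finset ℕ) (hS : ∀ p ∈ S, p.Prime)
    (hS2 : ∀ p ∈ S, p ≠ 2) : (RS8 Q S).card = ∏ p ∈ S, rhoA Q p := by
  classical
  have h := crt_aux (fun p b => ¬ p ∣ b ∧ Q p b) S hS 8 (by norm_num)
    (fun p hp => not_dvd_eight (hS p hp) (hS2 p hp)) 3
  have e : ∏ p ∈ S, rhoA Q p = ∏ p ∈ S, ((range p).filter (fun b => ¬ p ∣ b ∧ Q p b)).card := by
    apply prod_congr rfl
    intro p _
    unfold rhoA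
    congr 1
  rw [e, ← h]
  unfold RS8
  congr 1
  apply filter_congr
  intro b _
  have h1 : ∀ p : ℕ, (p ∣ b ↔ p ∣ b % p) := by
    intro p
    rw [Nat.dvd_iff_mod_eq_zero, Nat.dvd_iff_mod_eq_zero, Nat.mod_mod]
  apply and_congr_right
  intro _
  constructor
  · intro h p hp
    obtain ⟨h3, hi⟩ := h p hp
    exact ⟨fun h4 => h3 ((h1 p).2 h4), (hQ.per p b).1 hi⟩
  · intro h p hp
    obtain ⟨h3, hi⟩ := h p hp
    exact ⟨fun h4 => h3 ((h1 p).1 h4), (hQ.per p b).2 hi⟩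

lemma RS8_coprime (Q : ℕ → ℕ → Prop) (S : Finset ℕ) (hS : ∀ p ∈ S, p.Prime) (b : ℕ)
    (hb : b ∈ RS8 Q S) : b < 8 * ∏ p ∈ S, p ∧ Nat.Coprime b (8 * ∏ p ∈ S, p) := by
  classical
  unfold RS8 at hb
  rw [mem_filter, mem_range] at hb
  refine ⟨hb.1, ?_⟩
  apply Nat.Coprime.mul_right
  · have h1 : Nat.Coprime b 2 := by
      rw [Nat.coprime_comm, Nat.coprime_two_left]
      have h2 := hb.2.1
      unfold Nat.ModEq at h2
      rw [Nat.odd_iff]
      omega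
    have h2 : Nat.Coprime b (2 ^ 3) := Nat.Coprime.pow_right 3 h1
    norm_num at h2
    exact h2
  · apply Nat.Coprime.prod_right
    intro p hp
    exact ((Nat.Prime.coprime_iff_not_dvd (hS p hp)).2 (hb.2.2 p hp).1).symm

lemma cnt8_err (Q : ℕ → ℕ → Prop) {c : ℕ} (hQ : PerA Q c) (y : ℕ) (S : Finset ℕ)
    (hSp : ∀ p ∈ S, p.Prime) (hS2 : ∀ p ∈ S, p ≠ 2) :
    |(cnt8 Q y S : ℝ) - (piN y : ℝ) / 4 * ∏ p ∈ S, ((rhoA Q p : ℝ) / (p - 1 : ℝ))| ≤
      ∑ b ∈ RS8 Q S, |Er y (8 * ∏ p ∈ S, p) b| := by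
  classical
  set e := ∏ p ∈ S, p with he
  set d := 8 * e with hd
  have he1 : 1 ≤ e := Nat.pos_of_ne_zero (prod_ne_zero_iff.2 fun p hp => (hSp p hp).ne_zero)
  have hd1 : 1 ≤ d := by omega
  have hpd : ∀ p ∈ S, p ∣ d := fun p hp => Dvd.dvd.mul_left (dvd_prod_of_mem _ hp) 8
  have h8d : 8 ∣ d := Dvd.intro _ rfl
  have hcop : Nat.Coprime 8 e := by
    rw [he]
    apply Nat.Coprime.prod_right
    intro p hp
    exact ((Nat.Prime.coprime_iff_not_dvd (hSp p hp)).2 (not_dvd_eight (hSp p hp) (hS2 p hp))).symm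
  have hRS : RS8 Q S = (range d).filter (fun b => b ≡ 3 [MOD 8] ∧ ∀ p ∈ S, ¬ p ∣ b ∧ Q p b) := by
    unfold RS8
    congr 1
  have h1 : (cnt8 Q y S : ℝ) = ∑ b ∈ RS8 Q S, (piAP y d b : ℝ) := by
    unfold cnt8 piAP
    rw [← Nat.cast_sum]
    congr 1
    rw [card_eq_sum_card_fiberwise (f := fun n => n % d) (t := RS8 Q S)]
    · apply sum_congr rfl
      intro b hb
      rw [hRS, mem_filter, mem_range] at hb
      congr 1
      ext n
      rw [mem_filter, mem_filter, mem_filter]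
      constructor
      · rintro ⟨⟨h1, h2, h3⟩, h4⟩
        refine ⟨h1, h2, ?_⟩
        unfold Nat.ModEq
        rw [h4, Nat.mod_eq_of_lt hb.1]
      · rintro ⟨h1, h2, h3⟩
        have h3' : n % d = b := by
          unfold Nat.ModEq at h3
          rwa [Nat.mod_eq_of_lt hb.1] at h3
        refine ⟨⟨h1, h2, (h3.of_dvd h8d).trans hb.2.1, fun p hp => ?_⟩, h3'⟩
        obtain ⟨h4, hi⟩ := hb.2.2 p hp
        rw [← h3'] at h4 hi
        exact ⟨fun h5 => h4 ((dvd_mod_iff n d p (hpd p hp)).2 h5), (hQ.mod n d p (hpd p hp)).1 hi⟩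
    · intro n hn
      rw [mem_coe, mem_filter] at hn
      rw [mem_coe, hRS, mem_filter, mem_range]
      refine ⟨Nat.mod_lt _ hd1, ((Nat.mod_modEq n d).of_dvd h8d).trans hn.2.2.1, fun p hp => ?_⟩
      obtain ⟨h3, hi⟩ := hn.2.2.2 p hp
      exact ⟨fun h4 => h3 ((dvd_mod_iff n d p (hpd p hp)).1 h4), (hQ.mod n d p (hpd p hp)).2 hi⟩
  have htot : (Nat.totient d : ℝ) = 4 * ∏ p ∈ S, ((p : ℝ) - 1) := by
    rw [hd, Nat.totient_mul hcop, he, totient_prod S hSp]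
    have h8 : Nat.totient 8 = 4 := by decide
    rw [h8]
    push_cast
    congr 1
    apply prod_congr rfl
    intro p hp
    rw [Nat.cast_sub (hSp p hp).one_le]
    push_cast
    ring
  have h2 : (piN y : ℝ) / 4 * ∏ p ∈ S, ((rhoA Q p : ℝ) / (p - 1 : ℝ)) =
      ∑ b ∈ RS8 Q S, (piN y : ℝ) / (Nat.totient d : ℝ) := by
    rw [sum_const, nsmul_eq_mul, RS8_card Q hQ S hSp hS2, htot, prod_div_distrib]
    push_cast
    ring
  rw [h1, h2, ← sum_sub_distrib]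
  exact abs_sum_le_sum_abs _ _

/-- the sum of the error terms over the sets of odd primes with a bounded product -/
theorem bv8 (κ : ℝ) (hκ : κ < 1 / 2) (c U : ℕ) (hc : 1 ≤ c) : ∃ C : ℝ, 0 < C ∧
    ∀ x : ℕ, 3 ≤ x → ∀ y ≤ x, ∀ Q : ℕ → ℕ → Prop, PerA Q c → ∀ P : Finset ℕ,
    (∀ p ∈ P, p.Prime) → (∀ p ∈ P, p ≠ 2) → ∀ F ⊆ P.powerset,
    (∀ S ∈ F, ((8 * ∏ p ∈ S, p : ℕ) : ℝ) ≤ (x : ℝ) ^ κ) →
    ∑ S ∈ F, ∑ b ∈ RS8 Q S, |Er y (8 * ∏ p ∈ S, p) b| ≤ C * (x / Real.log x ^ U) := by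
  classical
  obtain ⟨C, hC, hbv⟩ := Pool.Agent.R503.W.bv_weights κ hκ c U hc
  refine ⟨C, hC, fun x hx y hy Q hQ P hP hP2 F hF hFx => ?_⟩
  have hcr : (1 : ℝ) ≤ c := by exact_mod_cast hc
  have hex : ∀ d : ℕ, ∃ b : ℕ, 1 ≤ d → (Nat.Coprime b d ∧
      ∀ b' < d, Nat.Coprime b' d → |Er y d b'| ≤ |Er y d b|) := by
    intro d
    by_cases hd : 1 ≤ d
    · obtain ⟨b, hb⟩ := worst y d hd
      exact ⟨b, fun _ => hb⟩
    · exact ⟨0, fun h => absurd h hd⟩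
  choose b hb using hex
  have h := hbv x hx b (fun d hd => (hb d hd).1) (fun _ => y) (fun _ => hy)
  have hFP : ∀ S ∈ F, ∀ p ∈ S, p.Prime := fun S hS p hp => hP p (mem_powerset.1 (hF hS) hp)
  have hFP2 : ∀ S ∈ F, ∀ p ∈ S, p ≠ 2 := fun S hS p hp => hP2 p (mem_powerset.1 (hF hS) hp)
  have hF0 : ∀ S ∈ F, 1 ≤ ∏ p ∈ S, p := fun S hS =>
    Nat.pos_of_ne_zero (prod_ne_zero_iff.2 fun p hp => (hFP S hS p hp).ne_zero)
  have hF1 : ∀ S ∈ F, 1 ≤ 8 * ∏ p ∈ S, p := fun S hS => by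
    have := hF0 S hS
    omega
  have hinj : Set.InjOn (fun S : Finset ℕ => 8 * ∏ p ∈ S, p) (F : Set (Finset ℕ)) := by
    intro S hS T hT hST
    simp only at hST
    have h2 := Nat.primeFactors_prod (fun p hp => hFP S hS p hp)
    have h3 := Nat.primeFactors_prod (fun p hp => hFP T hT p hp)
    have h4 : ∏ p ∈ S, p = ∏ p ∈ T, p := by omega
    rw [← h2, ← h3, h4]
  calc ∑ S ∈ F, ∑ b ∈ RS8 Q S, |Er y (8 * ∏ p ∈ S, p) b| ≤
      ∑ S ∈ F, (c : ℝ) ^ (8 * ∏ p ∈ S, p).primeFactors.card *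
        |Er y (8 * ∏ p ∈ S, p) (b (8 * ∏ p ∈ S, p))| := by
        apply sum_le_sum
        intro S hS
        calc ∑ b ∈ RS8 Q S, |Er y (8 * ∏ p ∈ S, p) b| ≤
            ∑ _b ∈ RS8 Q S, |Er y (8 * ∏ p ∈ S, p) (b (8 * ∏ p ∈ S, p))| := by
              apply sum_le_sum
              intro b' hb'
              obtain ⟨h1, h2⟩ := RS8_coprime Q S (hFP S hS) b' hb'
              exact (hb _ (hF1 S hS)).2 b' h1 h2
          _ = ((RS8 Q S).card : ℝ) * |Er y (8 * ∏ p ∈ S, p) (b (8 * ∏ p ∈ S, p))| := by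
              rw [sum_const, nsmul_eq_mul]
          _ ≤ _ := by
              apply mul_le_mul_of_nonneg_right _ (abs_nonneg _)
              rw [RS8_card Q hQ S (hFP S hS) (hFP2 S hS)]
              push_cast
              have h5 : ∏ p ∈ S, (rhoA Q p : ℝ) ≤ (c : ℝ) ^ S.card := by
                rw [← prod_const]
                apply Finset.prod_le_prod
                · intro p _
                  exact Nat.cast_nonneg _
                · intro p hp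
                  exact_mod_cast hQ.few p (hFP S hS p hp)
              refine h5.trans (pow_le_pow_right₀ hcr ?_)
              apply card_le_card
              intro p hp
              rw [Nat.mem_primeFactors]
              refine ⟨hFP S hS p hp, Dvd.dvd.mul_left (dvd_prod_of_mem _ hp) 8, ?_⟩
              have := hF1 S hS
              omega
    _ = ∑ d ∈ F.image (fun S => 8 * ∏ p ∈ S, p), (c : ℝ) ^ d.primeFactors.card *
          |Er y d (b d)| := by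
        rw [sum_image hinj]
    _ ≤ ∑ d ∈ Icc 1 ⌊(x : ℝ) ^ κ⌋₊, (c : ℝ) ^ d.primeFactors.card * |Er y d (b d)| := by
        apply sum_le_sum_of_subset_of_nonneg
        · intro d hd
          rw [mem_image] at hd
          obtain ⟨S, hS, rfl⟩ := hd
          rw [mem_Icc]
          exact ⟨hF1 S hS, Nat.le_floor (hFx S hS)⟩
        · intro d _ _
          positivity
    _ ≤ C * (x / Real.log x ^ U) := h

open Classical in
lemma cnt8_sub (Q : ℕ → ℕ → Prop) (A B : ℕ) (hAB : A ≤ B) (T : Finset ℕ)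
    (hT : ∀ p ∈ T, p.Prime ∧ p ≤ A) :
    (((((Ioc A B).filter (fun n : ℕ => n.Prime ∧ n ≡ 3 [MOD 8])).filter
      (fun n => ∀ p ∈ T, Q p n)).card : ℕ) : ℝ) = cnt8 Q B T - cnt8 Q A T := by
  unfold cnt8
  have h1 : (Icc 1 B).filter (fun n : ℕ => n.Prime ∧ n ≡ 3 [MOD 8] ∧ ∀ p ∈ T, ¬ p ∣ n ∧ Q p n) =
      (Icc 1 A).filter (fun n : ℕ => n.Prime ∧ n ≡ 3 [MOD 8] ∧ ∀ p ∈ T, ¬ p ∣ n ∧ Q p n) ∪
      ((Ioc A B).filter (fun n : ℕ => n.Prime ∧ n ≡ 3 [MOD 8])).filter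
        (fun n => ∀ p ∈ T, Q p n) := by
    ext n
    rw [mem_union, mem_filter, mem_filter, mem_filter, mem_filter, mem_Icc, mem_Icc, mem_Ioc]
    constructor
    · rintro ⟨⟨h2, h3⟩, h4, h48, h5⟩
      by_cases h6 : n ≤ A
      · exact Or.inl ⟨⟨h2, h6⟩, h4, h48, h5⟩
      · exact Or.inr ⟨⟨⟨by omega, h3⟩, h4, h48⟩, fun p hp => (h5 p hp).2⟩
    · rintro (⟨⟨h2, h3⟩, h4, h48, h5⟩ | ⟨⟨⟨h2, h3⟩, h4, h48⟩, h5⟩)
      · exact ⟨⟨h2, by omega⟩, h4, h48, h5⟩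
      · refine ⟨⟨h4.one_le, h3⟩, h4, h48, fun p hp => ⟨?_, h5 p hp⟩⟩
        intro hd
        have h6 := (Nat.prime_dvd_prime_iff_eq (hT p hp).1 h4).1 hd
        have h7 := (hT p hp).2
        omega
  have h2 := congrArg card h1
  rw [card_union_of_disjoint] at h2
  · have h3 : (((Icc 1 B).filter (fun n : ℕ => n.Prime ∧ n ≡ 3 [MOD 8] ∧
        ∀ p ∈ T, ¬ p ∣ n ∧ Q p n)).card : ℝ) =
        ((Icc 1 A).filter (fun n : ℕ => n.Prime ∧ n ≡ 3 [MOD 8] ∧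
          ∀ p ∈ T, ¬ p ∣ n ∧ Q p n)).card +
        ((((Ioc A B).filter (fun n : ℕ => n.Prime ∧ n ≡ 3 [MOD 8])).filter
        (fun n => ∀ p ∈ T, Q p n)).card : ℕ) := by
      exact_mod_cast h2
    linarith
  · rw [disjoint_left]
    intro p hp hp'
    rw [mem_filter, mem_Icc] at hp
    rw [mem_filter, mem_filter, mem_Ioc] at hp'
    omega

lemma piN_mono {A B : ℕ} (h : A ≤ B) : piN A ≤ piN B := by
  unfold Pool.Agent.H442R2.KF.piN
  apply card_le_card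
  intro p hp
  rw [mem_filter, mem_Icc] at hp ⊢
  exact ⟨⟨hp.1.1, hp.1.2.trans h⟩, hp.2⟩

lemma piN_le (B : ℕ) : piN B ≤ B := by
  unfold Pool.Agent.H442R2.KF.piN
  refine (card_filter_le _ _).trans ?_
  simp

open Classical in
/-- the sieve with a small level for the primes `≡ 3 mod 8` in an interval -/
theorem ap_sieve (c E U : ℕ) (hc : 1 ≤ c) : ∃ N0 : ℕ, ∀ N : ℕ, N0 ≤ N → ∀ z : ℕ, 1 ≤ z →
    (z : ℝ) ≤ Real.log N ^ E → ∀ Q : ℕ → ℕ → Prop, PerA Q c → ∀ A B : ℕ, z ≤ A → A ≤ B → B ≤ N →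
    |(((((Ioc A B).filter (fun n : ℕ => n.Prime ∧ n ≡ 3 [MOD 8])).filter
      (fun n => ∀ p ∈ (pz z).erase 2, ¬ Q p n)).card : ℕ) : ℝ) -
      ((piN B : ℝ) - piN A) / 4 *
        ∏ p ∈ (pz z).erase 2, (1 - (rhoA Q p : ℝ) / (p - 1 : ℝ))| ≤ N / Real.log N ^ U := by
  obtain ⟨N0, h0⟩ := choice (2 * c) E (U + 2) 4
  obtain ⟨C, hC, hbv⟩ := bv8 (1 / 3) (by norm_num) c (U + 3) hc
  obtain ⟨n1, h1⟩ := ev_L' (2 * C + 2)
  refine ⟨N0 + n1 + 8 ^ 12 + 4, ?_⟩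
  intro N hN z hz1 hzE Q hQ A B hzA hAB hBN
  obtain ⟨r, hr1, hr2, -⟩ := h0 N (by omega) z hzE
  have hL := h1 N (by omega)
  have hNr : (1 : ℝ) ≤ N := by exact_mod_cast (by omega : 1 ≤ N)
  have hN0 : (0 : ℝ) < N := by linarith
  have hN8 : (8 : ℝ) ^ 12 ≤ N := by exact_mod_cast (by omega : 8 ^ 12 ≤ N)
  set L := Real.log N with hLd
  have hL2 : 2 ≤ L := by linarith
  have hL0 : 0 < L := by linarith
  -- the level
  have hD : ((z : ℝ) + 1) ^ r ≤ (N : ℝ) ^ (1 / 4 : ℝ) := by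
    have h2 : (((z : ℝ) + 1) ^ r) ^ 4 ≤ N := hr2
    have h3 : ((((z : ℝ) + 1) ^ r) ^ 4) ^ (1 / 4 : ℝ) ≤ (N : ℝ) ^ (1 / 4 : ℝ) :=
      Real.rpow_le_rpow (by positivity) h2 (by norm_num)
    have h4 : ((((z : ℝ) + 1) ^ r) ^ 4) ^ (1 / 4 : ℝ) = ((z : ℝ) + 1) ^ r := by
      rw [← Real.rpow_natCast, ← Real.rpow_mul (by positivity)]
      norm_num
    rwa [h4] at h3
  have h8 : (8 : ℝ) ≤ (N : ℝ) ^ (1 / 12 : ℝ) := by
    have h2 : ((8 : ℝ) ^ 12) ^ (1 / 12 : ℝ) ≤ (N : ℝ) ^ (1 / 12 : ℝ) :=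
      Real.rpow_le_rpow (by positivity) hN8 (by norm_num)
    have h3 : ((8 : ℝ) ^ 12) ^ (1 / 12 : ℝ) = 8 := by
      rw [← Real.rpow_natCast, ← Real.rpow_mul (by norm_num)]
      norm_num
    rwa [h3] at h2
  have hDN : 8 * ((z : ℝ) + 1) ^ r ≤ (N : ℝ) ^ (1 / 3 : ℝ) := by
    calc 8 * ((z : ℝ) + 1) ^ r ≤ (N : ℝ) ^ (1 / 12 : ℝ) * (N : ℝ) ^ (1 / 4 : ℝ) :=
          mul_le_mul h8 hD (by positivity) (by positivity)
      _ = (N : ℝ) ^ (1 / 3 : ℝ) := by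
          rw [← Real.rpow_add hN0]
          norm_num
  have hrL : (r : ℝ) + 1 ≤ L := by
    have h2 : (2 : ℝ) ^ r ≤ (N : ℝ) ^ (1 / 4 : ℝ) := by
      refine le_trans (pow_le_pow_left₀ (by norm_num) ?_ r) hD
      have : (1 : ℝ) ≤ z := by exact_mod_cast hz1
      linarith
    have h3 := Real.log_le_log (by positivity) h2
    rw [Real.log_pow, Real.log_rpow hN0, ← hLd] at h3
    have h4 := Real.log_two_gt_d9
    have h5 : (0 : ℝ) ≤ r := Nat.cast_nonneg r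
    nlinarith
  set T : Finset ℕ := (pz z).erase 2 with hT
  have hTp : ∀ p ∈ T, p.Prime := fun p hp => (mem_pz.1 (mem_of_mem_erase hp)).2
  have hTz : ∀ p ∈ T, p ≤ z := fun p hp => (mem_pz.1 (mem_of_mem_erase hp)).1
  have hT2 : ∀ p ∈ T, p ≠ 2 := fun p hp => ne_of_mem_erase hp
  have hg01 : ∀ p : ℕ, p.Prime → 0 ≤ (rhoA Q p : ℝ) / (p - 1 : ℝ) ∧
      (rhoA Q p : ℝ) / (p - 1 : ℝ) ≤ 1 := by
    intro p hp
    have hp2 : (2 : ℝ) ≤ p := by exact_mod_cast hp.two_le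
    constructor
    · apply div_nonneg (Nat.cast_nonneg _)
      linarith
    · rw [div_le_one (by linarith)]
      have h1 := rhoA_le Q p
      have h2 : (rhoA Q p : ℝ) ≤ ((p - 1 : ℕ) : ℝ) := by exact_mod_cast h1
      rw [Nat.cast_sub hp.one_le] at h2
      push_cast at h2
      exact h2
  set X : ℝ := ((piN B : ℝ) - piN A) / 4 with hX
  have hX0 : 0 ≤ X := by
    have : (piN A : ℝ) ≤ piN B := by exact_mod_cast piN_mono hAB
    rw [hX]
    linarith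
  have hXN : X ≤ N / 4 := by
    have h2 : (piN B : ℝ) ≤ N := by exact_mod_cast (piN_le B).trans hBN
    have h3 : (0 : ℝ) ≤ piN A := Nat.cast_nonneg _
    rw [hX]
    linarith
  set R : Finset ℕ → ℝ := fun S => ∑ b ∈ RS8 Q S, |Er B (8 * ∏ p ∈ S, p) b| +
    ∑ b ∈ RS8 Q S, |Er A (8 * ∏ p ∈ S, p) b| with hR
  have key := sieve_gen' ((Ioc A B).filter (fun n : ℕ => n.Prime ∧ n ≡ 3 [MOD 8]))
    (fun _ => (1 : ℝ)) (fun _ _ => zero_le_one) (fun p n => Q p n) T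
    (fun p => (rhoA Q p : ℝ) / (p - 1 : ℝ)) (fun p hp => hg01 p (hTp p hp)) X hX0 R r (by
      intro S hS _
      have hSp : ∀ p ∈ S, p.Prime := fun p hp => hTp p (hS hp)
      have hS2 : ∀ p ∈ S, p ≠ 2 := fun p hp => hT2 p (hS hp)
      rw [sum_const, nsmul_eq_mul, mul_one]
      rw [cnt8_sub Q A B hAB S (fun p hp => ⟨hSp p hp, (hTz p (hS hp)).trans hzA⟩)]
      have e1 : (cnt8 Q B S : ℝ) - cnt8 Q A S - X * ∏ p ∈ S, ((rhoA Q p : ℝ) / (p - 1 : ℝ)) =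
          ((cnt8 Q B S : ℝ) - (piN B : ℝ) / 4 * ∏ p ∈ S, ((rhoA Q p : ℝ) / (p - 1 : ℝ))) -
          ((cnt8 Q A S : ℝ) - (piN A : ℝ) / 4 * ∏ p ∈ S, ((rhoA Q p : ℝ) / (p - 1 : ℝ))) := by
        rw [hX]
        ring
      rw [e1]
      refine (abs_sub _ _).trans ?_
      exact add_le_add (cnt8_err Q hQ B S hSp hS2) (cnt8_err Q hQ A S hSp hS2))
  rw [sum_const, nsmul_eq_mul, mul_one] at key
  refine key.trans ?_
  -- the error terms
  have hE1 : ∑ j ∈ range (r + 1), ∑ S ∈ T.powersetCard j, R S ≤ 2 * C * (N / L ^ (U + 2)) := by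
    have h2 : ∀ j ∈ range (r + 1), ∑ S ∈ T.powersetCard j, R S ≤ 2 * (C * (N / L ^ (U + 3))) := by
      intro j hj
      rw [mem_range] at hj
      have hF : T.powersetCard j ⊆ T.powerset := fun S hS =>
        mem_powerset.2 (mem_powersetCard.1 hS).1
      have hFD : ∀ S ∈ T.powersetCard j, ((8 * ∏ p ∈ S, p : ℕ) : ℝ) ≤ (N : ℝ) ^ (1 / 3 : ℝ) := by
        intro S hS
        obtain ⟨h3, h4⟩ := mem_powersetCard.1 hS
        refine le_trans ?_ hDN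
        have h5 : ∏ p ∈ S, p ≤ (z + 1) ^ r := by
          calc ∏ p ∈ S, p ≤ ∏ _p ∈ S, (z + 1) := by
                apply Finset.prod_le_prod (fun _ _ => Nat.zero_le _)
                intro p hp
                have := hTz p (h3 hp)
                omega
            _ = (z + 1) ^ j := by rw [prod_const, h4]
            _ ≤ (z + 1) ^ r := Nat.pow_le_pow_right (by omega) (by omega)
        have h6 : ((∏ p ∈ S, p : ℕ) : ℝ) ≤ ((z : ℝ) + 1) ^ r := by exact_mod_cast h5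
        push_cast at h6 ⊢
        linarith
      have b1 := hbv N (by omega) B hBN Q hQ T hTp hT2 _ hF hFD
      have b2 := hbv N (by omega) A (hAB.trans hBN) Q hQ T hTp hT2 _ hF hFD
      rw [hR, sum_add_distrib]
      linarith
    calc ∑ j ∈ range (r + 1), ∑ S ∈ T.powersetCard j, R S ≤
        ∑ _j ∈ range (r + 1), 2 * (C * (N / L ^ (U + 3))) := sum_le_sum h2
      _ = ((r : ℝ) + 1) * (2 * (C * (N / L ^ (U + 3)))) := by
          rw [sum_const, card_range, nsmul_eq_mul]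
          push_cast
          ring
      _ ≤ L * (2 * (C * (N / L ^ (U + 3)))) := mul_le_mul_of_nonneg_right hrL (by positivity)
      _ = 2 * C * (N / L ^ (U + 2)) := by
          rw [pow_succ L (U + 2)]
          field_simp
  have hE2 : 2 * X * es (fun p => (rhoA Q p : ℝ) / (p - 1 : ℝ)) T r ≤ N / L ^ (U + 2) := by
    have h5 : es (fun p => (rhoA Q p : ℝ) / (p - 1 : ℝ)) T r ≤ 1 / L ^ (U + 2) := by
      refine (es_le (fun p hp => (hg01 p (hTp p hp)).1) r).trans ?_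
      refine le_trans (Real.exp_le_exp.2 ?_) hr1
      have hg : ∀ p ∈ pz z, (rhoA Q p : ℝ) / (p - 1 : ℝ) ≤ (2 * c : ℕ) * (1 / (p : ℝ)) := by
        intro p hp
        have hp2 : (2 : ℝ) ≤ p := by exact_mod_cast (mem_pz.1 hp).2.two_le
        have h6 : (rhoA Q p : ℝ) ≤ c := by exact_mod_cast hQ.few p (mem_pz.1 hp).2
        have hk : (0 : ℝ) ≤ c := Nat.cast_nonneg _
        rw [mul_one_div, div_le_div_iff₀ (by linarith) (by linarith)]
        push_cast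
        nlinarith
      have h6 := sum_le_sum hg
      rw [← mul_sum] at h6
      have h7 := sum_pz_le z
      have h8 : ((2 * c : ℕ) : ℝ) * ∑ p ∈ pz z, 1 / (p : ℝ) ≤ ((2 * c : ℕ) : ℝ) *
          (1 + Real.log z) := mul_le_mul_of_nonneg_left h7 (Nat.cast_nonneg _)
      have h9 : ∑ p ∈ T, (rhoA Q p : ℝ) / (p - 1 : ℝ) ≤
          ∑ p ∈ pz z, (rhoA Q p : ℝ) / (p - 1 : ℝ) := by
        apply sum_le_sum_of_subset_of_nonneg (erase_subset _ _)
        intro p hp _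
        exact (hg01 p (mem_pz.1 hp).2).1
      linarith
    calc 2 * X * es (fun p => (rhoA Q p : ℝ) / (p - 1 : ℝ)) T r ≤
        2 * (N / 4) * (1 / L ^ (U + 2)) := by
          apply mul_le_mul (by linarith) h5 _ (by positivity)
          exact es_nonneg (fun p hp => (hg01 p (hTp p hp)).1) r
      _ = 1 / 2 * (N / L ^ (U + 2)) := by ring
      _ ≤ 1 * (N / L ^ (U + 2)) := mul_le_mul_of_nonneg_right (by norm_num) (by positivity)
      _ = _ := one_mul _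
  have hfin : (2 * C + 1) * (N / L ^ (U + 2)) ≤ N / L ^ U := by
    rw [pow_add, ← div_div, ← mul_div_assoc, div_le_iff₀ (by positivity), mul_comm]
    apply mul_le_mul_of_nonneg_left _ (by positivity)
    nlinarith
  linarith

end Pool.Agent.NH18.AU
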