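import Pool.Agent.NH18.AU.C1
import Pool.Agent.H373R2.T7.Fund

/-! The conditions `p ∣ 8 n - 4 P² - (P+1)²`. -/

set_option autoImplicit false

namespace Pool.Agent.NH18.AU

open Finset
open Pool.Agent.H373R2.T7

/-- the condition at the prime `p` -/
def Qn (n p P : ℕ) : Prop := (p : ℤ) ∣ 8 * (n : ℤ) - 4 * (P : ℤ) ^ 2 - ((P : ℤ) + 1) ^ 2

lemma Qn_per (n p m : ℕ) : Qn n p m ↔ Qn n p (m % p) := by
  unfold Qn
  have h1 : (p : ℤ) ∣ (m : ℤ) - ((m % p : ℕ) : ℤ) := by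
    have := Nat.div_add_mod m p
    refine ⟨((m / p : ℕ) : ℤ), ?_⟩
    have h2 : ((p * (m / p) + m % p : ℕ) : ℤ) = m := by exact_mod_cast this
    push_cast at h2 ⊢
    linarith
  have h2 : (p : ℤ) ∣ (8 * (n : ℤ) - 4 * (m : ℤ) ^ 2 - ((m : ℤ) + 1) ^ 2) -
      (8 * (n : ℤ) - 4 * ((m % p : ℕ) : ℤ) ^ 2 - (((m % p : ℕ) : ℤ) + 1) ^ 2) := by
    have e : (8 * (n : ℤ) - 4 * (m : ℤ) ^ 2 - ((m : ℤ) + 1) ^ 2) -
      (8 * (n : ℤ) - 4 * ((m % p : ℕ) : ℤ) ^ 2 - (((m % p : ℕ) : ℤ) + 1) ^ 2) =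
      ((m : ℤ) - ((m % p : ℕ) : ℤ)) * (-(5 * ((m : ℤ) + ((m % p : ℕ) : ℤ)) + 2)) := by ring
    rw [e]
    exact Dvd.dvd.mul_right h1 _
  exact (dvd_iff_dvd_of_dvd_sub h2)

lemma eq_of_dvd_sub {p a b : ℕ} (ha : a < p) (hb : b < p) (h : (p : ℤ) ∣ (b : ℤ) - a) : a = b :=
  Nat.ModEq.eq_of_lt_of_lt (Nat.modEq_iff_dvd.2 h) ha hb

lemma Qn_few (n p : ℕ) (hp : p.Prime) : rhoA (Qn n) p ≤ 2 := by
  classical
  by_cases h2 : p = 2
  · have := rhoA_le (Qn n) p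
    omega
  by_contra hcon
  push Not at hcon
  unfold rhoA at hcon
  obtain ⟨a, ha, b, hb, c, hc, hab, hac, hbc⟩ := Finset.two_lt_card.1 hcon
  simp only [mem_filter, mem_range] at ha hb hc
  unfold Qn at ha hb hc
  have hpp : Prime (p : ℤ) := Nat.prime_iff_prime_int.1 hp
  have key : ∀ a b : ℕ, a < p → b < p → a ≠ b →
      (p : ℤ) ∣ 8 * (n : ℤ) - 4 * (a : ℤ) ^ 2 - ((a : ℤ) + 1) ^ 2 →
      (p : ℤ) ∣ 8 * (n : ℤ) - 4 * (b : ℤ) ^ 2 - ((b : ℤ) + 1) ^ 2 →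
      (p : ℤ) ∣ 5 * ((a : ℤ) + b) + 2 := by
    intro a b ha hb hab h1 h2
    have h3 := dvd_sub h1 h2
    have e : (8 * (n : ℤ) - 4 * (a : ℤ) ^ 2 - ((a : ℤ) + 1) ^ 2) -
      (8 * (n : ℤ) - 4 * (b : ℤ) ^ 2 - ((b : ℤ) + 1) ^ 2) =
      ((b : ℤ) - a) * (5 * ((a : ℤ) + b) + 2) := by ring
    rw [e] at h3
    rcases hpp.dvd_or_dvd h3 with h | h
    · exact absurd (eq_of_dvd_sub ha hb h) hab
    · exact h
  have k1 := key a b ha.1 hb.1 hab ha.2.2 hb.2.2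
  have k2 := key a c ha.1 hc.1 hac ha.2.2 hc.2.2
  have h3 := dvd_sub k2 k1
  have e : (5 * ((a : ℤ) + c) + 2) - (5 * ((a : ℤ) + b) + 2) = 5 * ((c : ℤ) - b) := by ring
  rw [e] at h3
  rcases hpp.dvd_or_dvd h3 with h | h
  · -- `p = 5`
    have h4 : (p : ℤ) ∣ 2 := by
      have h5 : (p : ℤ) ∣ 5 * ((a : ℤ) + b) := Dvd.dvd.mul_right h _
      exact (dvd_add_right h5).1 k1
    have h5 : p ∣ 2 := by exact_mod_cast h4
    exact h2 ((Nat.prime_dvd_prime_iff_eq hp Nat.prime_two).1 h5)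
  · exact hbc (eq_of_dvd_sub hb.1 hc.1 h)

lemma Qn_PerA (n : ℕ) : PerA (Qn n) 2 := ⟨fun p m => Qn_per n p m, fun p hp => Qn_few n p hp⟩

lemma Qn_three (n : ℕ) : rhoA (Qn n) 3 ≤ 1 := by
  classical
  unfold rhoA
  rw [Finset.card_le_one]
  intro a ha b hb
  simp only [mem_filter, mem_range] at ha hb
  unfold Qn at ha hb
  obtain ⟨ha1, ha2, ha3⟩ := ha
  obtain ⟨hb1, hb2, hb3⟩ := hb
  interval_cases a <;> interval_cases b <;> first | rfl | omega | skip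
  all_goals
    exfalso
    push_cast at ha3 hb3
    omega

/-- the lower bound of the sieve product -/
lemma Qn_prod (n z : ℕ) :
    (Vz z) ^ 4 ≤ ∏ p ∈ (pz z).erase 2, (1 - (rhoA (Qn n) p : ℝ) / (p - 1 : ℝ)) := by
  have hfac : ∀ p ∈ (pz z).erase 2, (1 - 1 / (p : ℝ)) ^ 4 ≤
      1 - (rhoA (Qn n) p : ℝ) / (p - 1 : ℝ) := by
    intro p hp
    have hpp : p.Prime := (mem_pz.1 (mem_of_mem_erase hp)).2
    have hp2 : p ≠ 2 := ne_of_mem_erase hp
    have hp3 : 3 ≤ p := by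
      have := hpp.two_le
      omega
    by_cases h3 : p = 3
    · subst h3
      have h4 : (rhoA (Qn n) 3 : ℝ) ≤ 1 := by exact_mod_cast Qn_three n
      norm_num
      linarith
    · have hp5 : 5 ≤ p := by
        by_contra hlt
        have h4 : p = 4 := by omega
        rw [h4] at hpp
        exact absurd hpp (by norm_num)
      have hpr : (5 : ℝ) ≤ p := by exact_mod_cast hp5
      have h4 : (rhoA (Qn n) p : ℝ) ≤ 2 := by exact_mod_cast Qn_few n p hpp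
      have h5 : (rhoA (Qn n) p : ℝ) / (p - 1 : ℝ) ≤ 2 / (p - 1) :=
        div_le_div_of_nonneg_right h4 (by linarith)
      have h6 : (1 - 1 / (p : ℝ)) ^ 4 ≤ 1 - 2 / (p - 1) := by
        obtain ⟨t, ht⟩ : ∃ t : ℝ, t = 1 / (p : ℝ) := ⟨_, rfl⟩
        have ht0 : 0 < t := by rw [ht]; positivity
        have ht5 : t ≤ 1 / 5 := by
          rw [ht]
          exact one_div_le_one_div_of_le (by norm_num) hpr
        have h7 : 2 / ((p : ℝ) - 1) = 2 * t / (1 - t) := by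
          rw [ht]
          have : (p : ℝ) - 1 ≠ 0 := by linarith
          have : (p : ℝ) ≠ 0 := by linarith
          field_simp
        rw [h7, ← ht]
        have h8 : (0 : ℝ) < 1 - t := by linarith
        have h9 : 1 - 2 * t / (1 - t) = (1 - 3 * t) / (1 - t) := by
          field_simp
          ring
        rw [h9, le_div_iff₀ h8]
        have h10 : (1 - 3 * t) - (1 - t) ^ 4 * (1 - t) =
            t * ((2 - 10 * t) + 5 * t ^ 2 * (2 - t) + t ^ 4) := by ring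
        have h11 : 0 ≤ t * ((2 - 10 * t) + 5 * t ^ 2 * (2 - t) + t ^ 4) := by
          apply mul_nonneg ht0.le
          have h12 : 0 ≤ 5 * t ^ 2 * (2 - t) := by
            apply mul_nonneg (by positivity)
            linarith
          have h13 : 0 ≤ t ^ 4 := by positivity
          linarith
        linarith
      linarith
  have h1 : ∀ p ∈ pz z, 0 ≤ (1 - 1 / (p : ℝ)) ^ 4 ∧ (1 - 1 / (p : ℝ)) ^ 4 ≤ 1 := by
    intro p hp
    have hp1 : (1 : ℝ) ≤ p := by exact_mod_cast (mem_pz.1 hp).2.one_le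
    have h2 : 1 / (p : ℝ) ≤ 1 := by rw [div_le_one (by linarith)]; exact hp1
    have h3 : 0 < 1 / (p : ℝ) := by positivity
    exact ⟨by positivity, pow_le_one₀ (by linarith) (by linarith)⟩
  calc (Vz z) ^ 4 = ∏ p ∈ pz z, (1 - 1 / (p : ℝ)) ^ 4 := by
        unfold Vz
        rw [prod_pow]
    _ ≤ ∏ p ∈ (pz z).erase 2, (1 - 1 / (p : ℝ)) ^ 4 := by
        rw [← prod_sdiff (erase_subset 2 (pz z))]
        have h2 : ∏ p ∈ pz z \ (pz z).erase 2, (1 - 1 / (p : ℝ)) ^ 4 ≤ 1 :=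
          prod_le_one (fun p hp => (h1 p (sdiff_subset hp)).1) (fun p hp => (h1 p (sdiff_subset hp)).2)
        have h3 : 0 ≤ ∏ p ∈ (pz z).erase 2, (1 - 1 / (p : ℝ)) ^ 4 :=
          prod_nonneg fun p hp => (h1 p (mem_of_mem_erase hp)).1
        exact mul_le_of_le_one_left h3 h2
    _ ≤ _ := Finset.prod_le_prod (fun p hp => (h1 p (mem_of_mem_erase hp)).1) hfac

end Pool.Agent.NH18.AU
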