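import Pool.Agent.NH18.AU.C2
import Pool.Agent.H442R2.EHI.PntErr
import Pool.Agent.R330.AF.Lset

/-! The pointwise lower bound for the model. -/

set_option autoImplicit false

namespace Pool.Agent.NH18.AU

open Finset Filter
open Pool.Agent.H373R2.T7
open Pool.Agent.H442R2.KF (piN piAP Er)
open Pool.Agent.R330.AF (LL TB)

/-- the lower end of the range of the primes -/
def PA (X : ℕ) : ℕ := Nat.sqrt (4 * X / 3) + 1

/-- the upper end of the range of the primes -/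
def PB (X : ℕ) : ℕ := Nat.sqrt (7 * X / 5)

/-- the length -/
def xx (X : ℕ) : ℕ := 2 * (Nat.sqrt X + 1)

lemma PA_le (X : ℕ) : (PA X : ℝ) ≤ 1.1548 * √(X : ℝ) + 1 := by
  unfold PA
  push_cast
  have h1 : ((Nat.sqrt (4 * X / 3) : ℕ) : ℝ) ≤ √((4 * X / 3 : ℕ) : ℝ) := Real.nat_sqrt_le_real_sqrt
  have h2 : ((4 * X / 3 : ℕ) : ℝ) ≤ 1.1548 ^ 2 * X := by
    have h3 : ((4 * X / 3 : ℕ) : ℝ) ≤ ((4 * X : ℕ) : ℝ) / (3 : ℕ) := Nat.cast_div_le
    push_cast at h3 ⊢
    have h4 : (0 : ℝ) ≤ X := Nat.cast_nonneg _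
    nlinarith
  have h3 : √((4 * X / 3 : ℕ) : ℝ) ≤ 1.1548 * √(X : ℝ) := by
    calc √((4 * X / 3 : ℕ) : ℝ) ≤ √(1.1548 ^ 2 * X) := Real.sqrt_le_sqrt h2
      _ = 1.1548 * √(X : ℝ) := by
          rw [Real.sqrt_mul (by positivity), Real.sqrt_sq (by norm_num)]
  linarith

lemma PB_ge (X : ℕ) (hX : 400 ≤ X) : 1.18 * √(X : ℝ) - 1 ≤ PB X := by
  unfold PB
  have h1 : √((7 * X / 5 : ℕ) : ℝ) < ((Nat.sqrt (7 * X / 5) : ℕ) : ℝ) + 1 := by
    rw [Real.sqrt_lt' (by positivity)]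
    have := Nat.lt_succ_sqrt' (7 * X / 5)
    exact_mod_cast this
  have hXr : (400 : ℝ) ≤ X := by exact_mod_cast hX
  have h2 : 1.18 ^ 2 * (X : ℝ) ≤ ((7 * X / 5 : ℕ) : ℝ) := by
    have h3 : 7 * X < 5 * (7 * X / 5) + 5 := by omega
    have h4 : (7 : ℝ) * X < 5 * ((7 * X / 5 : ℕ) : ℝ) + 5 := by exact_mod_cast h3
    nlinarith
  have h3 : 1.18 * √(X : ℝ) ≤ √((7 * X / 5 : ℕ) : ℝ) := by
    calc 1.18 * √(X : ℝ) = √(1.18 ^ 2 * X) := by
          rw [Real.sqrt_mul (by positivity), Real.sqrt_sq (by norm_num)]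
      _ ≤ _ := Real.sqrt_le_sqrt h2
  linarith

lemma PB_le (X : ℕ) : (PB X : ℝ) ≤ 1.2 * √(X : ℝ) := by
  unfold PB
  have h1 : ((Nat.sqrt (7 * X / 5) : ℕ) : ℝ) ≤ √((7 * X / 5 : ℕ) : ℝ) := Real.nat_sqrt_le_real_sqrt
  have h2 : ((7 * X / 5 : ℕ) : ℝ) ≤ 1.2 ^ 2 * X := by
    have h3 : ((7 * X / 5 : ℕ) : ℝ) ≤ ((7 * X : ℕ) : ℝ) / (5 : ℕ) := Nat.cast_div_le
    push_cast at h3 ⊢
    have h4 : (0 : ℝ) ≤ X := Nat.cast_nonneg _
    nlinarith
  calc ((Nat.sqrt (7 * X / 5) : ℕ) : ℝ) ≤ √((7 * X / 5 : ℕ) : ℝ) := h1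
    _ ≤ √(1.2 ^ 2 * X) := Real.sqrt_le_sqrt h2
    _ = 1.2 * √(X : ℝ) := by
        rw [Real.sqrt_mul (by positivity), Real.sqrt_sq (by norm_num)]

lemma PA_ge (X : ℕ) : √(X : ℝ) ≤ PA X := by
  unfold PA
  have h1 : X < (Nat.sqrt (4 * X / 3) + 1) ^ 2 := by
    have := Nat.lt_succ_sqrt' (4 * X / 3)
    have h2 : X ≤ 4 * X / 3 := by omega
    exact lt_of_le_of_lt h2 this
  rw [Real.sqrt_le_left (by positivity)]
  exact_mod_cast h1.le

lemma xx_le (X : ℕ) : √(X : ℝ) ≤ (xx X : ℝ) / 2 := by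
  unfold xx
  push_cast
  rw [Real.sqrt_le_left (by positivity)]
  have h := Nat.lt_succ_sqrt' X
  have h1 : (X : ℝ) < ((Nat.sqrt X + 1 : ℕ) : ℝ) ^ 2 := by exact_mod_cast h
  push_cast at h1
  calc (X : ℝ) ≤ ((Nat.sqrt X : ℝ) + 1) ^ 2 := h1.le
    _ = _ := by ring

lemma xx_ge (X : ℕ) (hX : 4 ≤ X) : (xx X : ℝ) / 4 ≤ √(X : ℝ) := by
  unfold xx
  push_cast
  have h1 : ((Nat.sqrt X : ℕ) : ℝ) ≤ √(X : ℝ) := Real.nat_sqrt_le_real_sqrt
  have h2 : (2 : ℝ) ≤ √(X : ℝ) := by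
    rw [Real.le_sqrt (by norm_num) (by positivity)]
    have : (4 : ℝ) ≤ X := by exact_mod_cast hX
    rw [show ((2 : ℝ)) ^ 2 = 4 by norm_num]
    exact this
  linarith

lemma Ioc_card (A B : ℕ) (hAB : A ≤ B) :
    ((((Ioc A B).filter Nat.Prime).card : ℕ) : ℝ) = (piN B : ℝ) - piN A := by
  unfold Pool.Agent.H442R2.KF.piN
  have h1 : (Icc 1 B).filter (fun p : ℕ => p.Prime) = (Icc 1 A).filter (fun p : ℕ => p.Prime) ∪
      (Ioc A B).filter Nat.Prime := by
    ext p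
    rw [mem_union, mem_filter, mem_filter, mem_filter, mem_Icc, mem_Icc, mem_Ioc]
    constructor
    · rintro ⟨⟨h2, h3⟩, h4⟩
      by_cases h5 : p ≤ A
      · exact Or.inl ⟨⟨h2, h5⟩, h4⟩
      · exact Or.inr ⟨⟨by omega, h3⟩, h4⟩
    · rintro (⟨⟨h2, h3⟩, h4⟩ | ⟨⟨h2, h3⟩, h4⟩)
      · exact ⟨⟨h2, by omega⟩, h4⟩
      · exact ⟨⟨h4.one_le, h3⟩, h4⟩
  have h2 := congrArg card h1
  rw [card_union_of_disjoint] at h2
  · have h3 : (((Icc 1 B).filter (fun p : ℕ => p.Prime)).card : ℝ) =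
        ((Icc 1 A).filter (fun p : ℕ => p.Prime)).card + ((Ioc A B).filter Nat.Prime).card := by
      exact_mod_cast h2
    linarith
  · rw [disjoint_left]
    intro p hp hp'
    rw [mem_filter, mem_Icc] at hp
    rw [mem_filter, mem_Ioc] at hp'
    omega

lemma theta_sub (A B : ℕ) (hAB : A ≤ B) :
    Chebyshev.theta (B : ℝ) - Chebyshev.theta (A : ℝ) ≤ ((piN B : ℝ) - piN A) * Real.log B := by
  rw [← Ioc_card A B hAB, Chebyshev.theta_eq_sum_Icc, Chebyshev.theta_eq_sum_Icc,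
    Nat.floor_natCast, Nat.floor_natCast]
  have h1 : (Icc 0 B).filter Nat.Prime = (Icc 0 A).filter Nat.Prime ∪
      (Ioc A B).filter Nat.Prime := by
    ext p
    rw [mem_union, mem_filter, mem_filter, mem_filter, mem_Icc, mem_Icc, mem_Ioc]
    constructor
    · rintro ⟨⟨h2, h3⟩, h4⟩
      by_cases h5 : p ≤ A
      · exact Or.inl ⟨⟨h2, h5⟩, h4⟩
      · exact Or.inr ⟨⟨by omega, h3⟩, h4⟩
    · rintro (⟨⟨h2, h3⟩, h4⟩ | ⟨⟨h2, h3⟩, h4⟩)
      · exact ⟨⟨h2, by omega⟩, h4⟩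
      · exact ⟨⟨by omega, h3⟩, h4⟩
  rw [h1, sum_union]
  · have h2 : ∑ p ∈ (Ioc A B).filter Nat.Prime, Real.log p ≤
        ∑ _p ∈ (Ioc A B).filter Nat.Prime, Real.log B := by
      apply sum_le_sum
      intro p hp
      rw [mem_filter, mem_Ioc] at hp
      exact Real.log_le_log (by exact_mod_cast hp.2.pos) (by exact_mod_cast hp.1.2)
    rw [sum_const, nsmul_eq_mul] at h2
    linarith
  · rw [disjoint_left]
    intro p hp hp'
    rw [mem_filter, mem_Icc] at hp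
    rw [mem_filter, mem_Ioc] at hp'
    omega

/-- many primes in the range -/
lemma pi_low : ∃ X0 : ℕ, ∀ X : ℕ, X0 ≤ X → PA X ≤ PB X ∧
    √(X : ℝ) / (200 * Real.log X) ≤ (piN (PB X) : ℝ) - piN (PA X) := by
  obtain ⟨C, hC, hθ⟩ := Pool.Agent.H442R2.EHI.PntErrAux.thetaU 1
  obtain ⟨n1, h1⟩ := ev_L' (1200 * C + 2)
  refine ⟨n1 + 160000, fun X hX => ?_⟩
  have hL := h1 X (by omega)
  have hX1 : 160000 ≤ X := by omega
  have hXr : (160000 : ℝ) ≤ X := by exact_mod_cast hX1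
  have hX0 : (0 : ℝ) < X := by linarith
  set S := √(X : ℝ) with hS
  have hS400 : 400 ≤ S := by
    rw [hS, Real.le_sqrt (by norm_num) (by positivity), show ((400 : ℝ)) ^ 2 = 160000 by norm_num]
    exact hXr
  have hSS : S * S = X := Real.mul_self_sqrt hX0.le
  have hA1 := PA_le X
  have hA2 := PA_ge X
  have hB1 := PB_ge X (by omega)
  have hB2 := PB_le X
  rw [← hS] at hA1 hA2 hB1 hB2
  have hAB : (PA X : ℝ) ≤ PB X := by linarith
  have hABn : PA X ≤ PB X := by exact_mod_cast hAB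
  refine ⟨hABn, ?_⟩
  set L := Real.log X with hLd
  have hL2 : 2 ≤ L := by nlinarith
  have hL0 : 0 < L := by linarith
  have hlogS : Real.log S = L / 2 := by
    rw [hS, Real.log_sqrt hX0.le]
  have hlA : L / 2 ≤ Real.log (PA X) := by
    rw [← hlogS]
    exact Real.log_le_log (by linarith) hA2
  have hlB : L / 2 ≤ Real.log (PB X) :=
    hlA.trans (Real.log_le_log (by linarith) hAB)
  have hlB2 : Real.log (PB X) ≤ L := by
    apply Real.log_le_log (by linarith)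
    nlinarith
  have hpa2 : 2 ≤ PA X := by
    have : (2 : ℝ) ≤ PA X := by linarith
    exact_mod_cast this
  have hpb2 : 2 ≤ PB X := hpa2.trans hABn
  have t1 := hθ (PB X) hpb2
  have t2 := hθ (PA X) hpa2
  rw [pow_one] at t1 t2
  have e1 : C * ((PB X : ℝ) / Real.log (PB X)) ≤ C * (1.2 * S / (L / 2)) := by
    apply mul_le_mul_of_nonneg_left _ hC.le
    exact div_le_div₀ (by positivity) hB2 (by linarith) hlB
  have e2 : C * ((PA X : ℝ) / Real.log (PA X)) ≤ C * (1.2 * S / (L / 2)) := by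
    apply mul_le_mul_of_nonneg_left _ hC.le
    exact div_le_div₀ (by positivity) (hAB.trans hB2) (by linarith) hlA
  have e3 : C * (1.2 * S / (L / 2)) ≤ 0.002 * S := by
    have : C * (1.2 * S / (L / 2)) = (2.4 * C) * S / L := by ring
    rw [this, div_le_iff₀ hL0]
    nlinarith
  have e4 := (abs_le.1 t1).1
  have e5 := (abs_le.1 t2).2
  have e6 : 0.015 * S ≤ Chebyshev.theta (PB X : ℝ) - Chebyshev.theta (PA X : ℝ) := by linarith
  have e7 := theta_sub (PA X) (PB X) hABn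
  have e8 : (0 : ℝ) ≤ (piN (PB X) : ℝ) - piN (PA X) := by
    have : (piN (PA X) : ℝ) ≤ piN (PB X) := by exact_mod_cast piN_mono hABn
    linarith
  have e9 : 0.015 * S ≤ ((piN (PB X) : ℝ) - piN (PA X)) * L :=
    (e6.trans e7).trans (mul_le_mul_of_nonneg_left hlB2 e8)
  rw [div_le_iff₀ (by positivity)]
  nlinarith

open Classical in
/-- the good primes without the conditions -/
theorem model (ε : ℝ) (hε : 0 < ε) (hε1 : ε ≤ 1) (E : ℕ) : ∃ X0 : ℕ, ∀ X : ℕ, X0 ≤ X →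
    ∀ z : ℕ, Real.log (xx X) ≤ z → (z : ℝ) ≤ Real.log (xx X) ^ E → ∀ n : ℕ,
    2 * (xx X / Real.log (xx X) ^ 2) ≤
      ((((LL ⌊Real.log X ^ (1 - ε)⌋₊ (PA X) (PB X)).filter
        (fun P => ∀ p ∈ (pz z).erase 2, ¬ Qn n p P)).card : ℕ) : ℝ) := by
  obtain ⟨X1, hpi⟩ := pi_low
  obtain ⟨N1, hap⟩ := ap_sieve 2 E 3 (by norm_num)
  obtain ⟨C, hC, hTB⟩ := Pool.Agent.R330.AF.TB_bound
  obtain ⟨C1, N2, hV⟩ := Vz_low
  have hlim : Tendsto (fun N : ℕ => Real.log (N : ℝ)) atTop atTop :=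
    Real.tendsto_log_atTop.comp (tendsto_natCast_atTop_atTop (R := ℝ))
  -- growth conditions
  have ev1 : ∀ᶠ N : ℕ in atTop, ((E + 1 : ℝ) * Real.log (Real.log N)) ^ (4 * C1) ≤
      Real.log N ^ (ε / 2) := by
    have h1 := (isLittleO_log_rpow_rpow_atTop ((4 * C1 : ℕ) : ℝ)
      (show (0 : ℝ) < ε / 2 by positivity)).bound
      (show 0 < 1 / ((E + 1 : ℝ) ^ (4 * C1)) by positivity)
    have h2 : ∀ᶠ t : ℝ in atTop, ((E + 1 : ℝ) * Real.log t) ^ (4 * C1) ≤ t ^ (ε / 2) := by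
      filter_upwards [h1, eventually_ge_atTop 1] with t ht ht1
      have hl : 0 ≤ Real.log t := Real.log_nonneg ht1
      rw [Real.rpow_natCast, Real.norm_of_nonneg (by positivity),
        Real.norm_of_nonneg (by positivity), one_div, inv_mul_eq_div,
        le_div_iff₀ (by positivity)] at ht
      rw [mul_pow, mul_comm]
      exact ht
    exact hlim.eventually h2
  have ev2 : ∀ᶠ N : ℕ in atTop, 12800 * (6 * C + 1) ≤ Real.log N ^ (ε / 2) :=
    ((tendsto_rpow_atTop (show (0 : ℝ) < ε / 2 by positivity)).comp hlim).eventually_ge_atTop _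
  have ev3 : ∀ᶠ N : ℕ in atTop, (25600 : ℝ) ≤ Real.log N ^ (1 / 2 : ℝ) :=
    ((tendsto_rpow_atTop (show (0 : ℝ) < 1 / 2 by norm_num)).comp hlim).eventually_ge_atTop _
  obtain ⟨n1, hev⟩ := eventually_atTop.1 (ev1.and (ev2.and ev3))
  obtain ⟨n2, h4⟩ := ev_log' E 4
  obtain ⟨n3, h5⟩ := ev_L' ((N2 : ℝ) + 100)
  refine ⟨X1 + (N1 + n1 + n2 + n3 + 10) ^ 2, ?_⟩
  intro X hX z hz1 hz2 n
  set m0 := N1 + n1 + n2 + n3 + 10 with hm0
  have hXm : m0 ^ 2 ≤ X := by omega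
  have hsq : m0 ≤ Nat.sqrt X := by
    rw [Nat.le_sqrt']
    exact hXm
  have hx10 : m0 ≤ xx X := by
    unfold xx
    omega
  have hX100 : 100 ≤ X := by
    have : 10 ^ 2 ≤ m0 ^ 2 := Nat.pow_le_pow_left (by omega) 2
    omega
  obtain ⟨hABn, hpiL⟩ := hpi X (by omega)
  obtain ⟨g1, g2, g3⟩ := hev (xx X) (by omega)
  have g4 := h4 (xx X) (by omega)
  have g5 := h5 (xx X) (by omega)
  have hx1 := xx_le X
  have hx2 := xx_ge X (by omega)
  have hXr : (100 : ℝ) ≤ X := by exact_mod_cast hX100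
  have hX0 : (0 : ℝ) < X := by linarith
  have hS0 : 0 < √(X : ℝ) := Real.sqrt_pos.2 hX0
  set x : ℝ := (xx X : ℝ) with hxd
  have hx0 : 0 < x := by linarith
  set L := Real.log x with hLd
  have hN20 : (0 : ℝ) ≤ N2 := Nat.cast_nonneg _
  have hL100 : 100 ≤ L := by linarith
  have hL0 : 0 < L := by linarith
  have hL1 : 1 ≤ L := by linarith
  have hX2 : (X : ℝ) ≤ x ^ 2 / 4 := by
    have h6 : √(X : ℝ) * √(X : ℝ) = X := Real.mul_self_sqrt hX0.le
    nlinarith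
  have hlX : Real.log X ≤ 2 * L := by
    calc Real.log X ≤ Real.log (x ^ 2) := by
          apply Real.log_le_log hX0
          nlinarith
      _ = 2 * L := by rw [Real.log_pow, hLd]; norm_num
  have hlX0 : 0 < Real.log X := Real.log_pos (by linarith)
  -- the main term
  have hz0 : 1 ≤ z := by
    have : (1 : ℝ) ≤ z := hL1.trans hz1
    exact_mod_cast this
  have hzN2 : N2 ≤ z := by
    have : (N2 : ℝ) ≤ z := by linarith
    exact_mod_cast this
  have hlz : Real.log z ≤ (E + 1 : ℝ) * Real.log L := by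
    have h6 : Real.log z ≤ Real.log (L ^ E) := Real.log_le_log (by exact_mod_cast hz0) hz2
    rw [Real.log_pow] at h6
    have h7 : 0 ≤ Real.log L := Real.log_nonneg hL1
    linarith
  have hlz0 : 0 < Real.log z := Real.log_pos (by linarith)
  have hVlow : L ^ (-(ε / 2)) ≤ (Vz z) ^ 4 := by
    have h6 := hV z hzN2
    have h7 : (1 / Real.log z ^ C1) ^ 4 ≤ (Vz z) ^ 4 := pow_le_pow_left₀ (by positivity) h6 4
    refine le_trans ?_ h7
    rw [div_pow, one_pow, ← pow_mul, mul_comm C1 4, Real.rpow_neg hL0.le, ← one_div]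
    apply one_div_le_one_div_of_le (by positivity)
    exact (pow_le_pow_left₀ hlz0.le hlz _).trans g1
  have hmainlow : x / (6400 * L) * L ^ (-(ε / 2)) ≤
      ((piN (PB X) : ℝ) - piN (PA X)) / 4 *
        ∏ p ∈ (pz z).erase 2, (1 - (rhoA (Qn n) p : ℝ) / (p - 1 : ℝ)) := by
    apply mul_le_mul _ (hVlow.trans (Qn_prod n z)) (by positivity)
    · have h6 : (0 : ℝ) ≤ √(X : ℝ) / (200 * Real.log X) := by positivity
      linarith
    · have h6 : x / 4 / (200 * (2 * L)) ≤ √(X : ℝ) / (200 * Real.log X) := by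
        apply div_le_div₀ hS0.le hx2 (by positivity)
        linarith
      have h7 : x / 4 / (200 * (2 * L)) / 4 = x / (6400 * L) := by
        field_simp
        norm_num
      linarith
  have hzA : z ≤ PA X := by
    have h6 := PA_ge X
    have h7 : 4 * L ^ E ≤ √x := g4
    have h8 : √x ≤ x := by
      rw [Real.sqrt_le_left hx0.le]
      have : (1 : ℝ) ≤ x := by
        have h9 : (10 : ℕ) ≤ xx X := by omega
        have h10 : (10 : ℝ) ≤ (xx X : ℝ) := by exact_mod_cast h9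
        linarith
      nlinarith
    have h9 : (z : ℝ) ≤ PA X := by linarith
    exact_mod_cast h9
  have hBx : PB X ≤ xx X := by
    have h6 := PB_le X
    have h7 : (PB X : ℝ) ≤ (xx X : ℝ) := by linarith
    exact_mod_cast h7
  have hs := hap (xx X) (by omega) z hz0 hz2 (Qn n) (Qn_PerA n) (PA X) (PB X) hzA hABn hBx
  -- the bad primes
  set H := ⌊Real.log X ^ (1 - ε)⌋₊ with hH
  have hHle : (H : ℝ) ≤ 2 * L ^ (1 - ε) := by
    calc (H : ℝ) ≤ Real.log X ^ (1 - ε) := Nat.floor_le (by positivity)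
      _ ≤ (2 * L) ^ (1 - ε) := Real.rpow_le_rpow hlX0.le hlX (by linarith)
      _ = 2 ^ (1 - ε) * L ^ (1 - ε) := Real.mul_rpow (by norm_num) hL0.le
      _ ≤ 2 * L ^ (1 - ε) := by
          apply mul_le_mul_of_nonneg_right _ (by positivity)
          calc (2 : ℝ) ^ (1 - ε) ≤ 2 ^ (1 : ℝ) :=
                Real.rpow_le_rpow_of_exponent_le (by norm_num) (by linarith)
            _ = 2 := Real.rpow_one _
  have hBr2 := PB_le X
  have hAr := PA_ge X
  have hABr : (PA X : ℝ) ≤ PB X := by exact_mod_cast hABn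
  have hB0 : (0 : ℝ) < PB X := by linarith
  have hlB : L / 2 ≤ Real.log (PB X) := by
    have h6 : x / 4 ≤ PB X := by linarith
    have h7 := Real.log_le_log (by positivity) h6
    rw [Real.log_div hx0.ne' (by norm_num)] at h7
    have h8 : Real.log 4 = 2 * Real.log 2 := by
      rw [show (4 : ℝ) = 2 ^ 2 by norm_num, Real.log_pow]
      norm_num
    have h9 := Real.log_two_lt_d9
    rw [h8] at h7
    linarith
  have hbad : (((∑ h ∈ Icc 1 H, (TB (PB X) h).card : ℕ)) : ℝ) ≤ 6 * C * (x / (L * L ^ ε)) := by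
    refine (hTB (PB X) H (by
      have h6 : (2 : ℝ) ≤ PB X := by
        have h7 : (10 : ℝ) ≤ x := by
          have h9 : (10 : ℕ) ≤ xx X := by omega
          rw [hxd]
          exact_mod_cast h9
        have h8 : (10 : ℝ) ≤ √(X : ℝ) := by
          rw [Real.le_sqrt (by norm_num) hX0.le, show ((10 : ℝ)) ^ 2 = 100 by norm_num]
          exact hXr
        linarith
      exact_mod_cast h6)).trans ?_
    have h6 : (PB X : ℝ) / Real.log (PB X) ^ 2 ≤ 0.6 * x / (L / 2) ^ 2 := by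
      apply div_le_div₀ (by positivity) (by linarith) (by positivity)
      exact pow_le_pow_left₀ (by positivity) hlB 2
    calc C * H * ((PB X : ℝ) / Real.log (PB X) ^ 2) ≤
        C * (2 * L ^ (1 - ε)) * (0.6 * x / (L / 2) ^ 2) := by
          apply mul_le_mul (mul_le_mul_of_nonneg_left hHle hC.le) h6 (by positivity) (by positivity)
      _ = 4.8 * C * (x / (L * L ^ ε)) := by
          rw [Real.rpow_sub hL0, Real.rpow_one]
          have h7 : L ^ ε ≠ 0 := by positivity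
          field_simp
          norm_num
      _ ≤ _ := by
          apply mul_le_mul_of_nonneg_right _ (by positivity)
          linarith
  -- the comparison
  have hcmp : ((((Ioc (PA X) (PB X)).filter (fun n : ℕ => n.Prime ∧ n ≡ 3 [MOD 8])).filter
      (fun P => ∀ p ∈ (pz z).erase 2, ¬ Qn n p P)).card : ℕ) ≤
      ((LL H (PA X) (PB X)).filter (fun P => ∀ p ∈ (pz z).erase 2, ¬ Qn n p P)).card +
        ∑ h ∈ Icc 1 H, (TB (PB X) h).card := by
    have h6 : ((Ioc (PA X) (PB X)).filter (fun n : ℕ => n.Prime ∧ n ≡ 3 [MOD 8])).filter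
      (fun P => ∀ p ∈ (pz z).erase 2, ¬ Qn n p P) ⊆
      (LL H (PA X) (PB X)).filter (fun P => ∀ p ∈ (pz z).erase 2, ¬ Qn n p P) ∪
        (Icc 1 H).biUnion (fun h => TB (PB X) h) := by
      intro P hP
      rw [mem_filter, mem_filter, mem_Ioc] at hP
      obtain ⟨⟨⟨h1, h2⟩, h3, h4⟩, h5⟩ := hP
      rw [mem_union]
      by_cases h6 : ∀ h ∈ Icc 1 H, ¬ (4 * h * P + 1).Prime
      · left
        rw [mem_filter]
        refine ⟨?_, h5⟩
        unfold Pool.Agent.R330.AF.LL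
        rw [mem_filter, mem_Ioc]
        refine ⟨⟨h1, h2⟩, h3, ?_, h6⟩
        unfold Nat.ModEq at h4
        omega
      · right
        push Not at h6
        obtain ⟨h, hh, hp⟩ := h6
        rw [mem_biUnion]
        refine ⟨h, hh, ?_⟩
        unfold Pool.Agent.R330.AF.TB
        rw [mem_filter, mem_Icc]
        refine ⟨⟨h3.one_le, h2⟩, ?_, hp⟩
        rw [one_mul, add_zero]
        exact h3
    exact (card_le_card h6).trans ((card_union_le _ _).trans
      (add_le_add le_rfl card_biUnion_le))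
  have hcmp' : ((((((Ioc (PA X) (PB X)).filter (fun n : ℕ => n.Prime ∧ n ≡ 3 [MOD 8])).filter
      (fun P => ∀ p ∈ (pz z).erase 2, ¬ Qn n p P)).card : ℕ)) : ℝ) ≤
      ((((LL H (PA X) (PB X)).filter (fun P => ∀ p ∈ (pz z).erase 2, ¬ Qn n p P)).card : ℕ) : ℝ) +
        ((∑ h ∈ Icc 1 H, (TB (PB X) h).card : ℕ) : ℝ) := by exact_mod_cast hcmp
  have hs1 := (abs_le.1 hs).1
  -- the numbers
  set δ := ε / 2 with hδ
  have hδ0 : 0 < δ := by positivity
  have hLδ : 0 < L ^ δ := by positivity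
  have hεδ : L ^ ε = L ^ δ * L ^ δ := by
    rw [← Real.rpow_add hL0]
    congr 1
    rw [hδ]
    ring
  have hnegδ : L ^ (-δ) = 1 / L ^ δ := by rw [Real.rpow_neg hL0.le, one_div]
  rw [hnegδ] at hmainlow
  rw [hεδ] at hbad
  set W : ℝ := x / (L * L ^ δ) with hW
  have hW0 : 0 < W := by positivity
  have k1 : x / (6400 * L) * (1 / L ^ δ) = W / 6400 := by
    rw [hW]
    field_simp
  have k2 : 6 * C * (x / (L * (L ^ δ * L ^ δ))) = 6 * C * W / L ^ δ := by
    rw [hW]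
    field_simp
  have k3 : x / L ^ 3 ≤ W / L ^ δ := by
    rw [hW, div_div]
    apply div_le_div_of_nonneg_left hx0.le (by positivity)
    have h6 : L ^ δ ≤ L := by
      calc L ^ δ ≤ L ^ (1 : ℝ) := Real.rpow_le_rpow_of_exponent_le hL1 (by rw [hδ]; linarith)
        _ = L := Real.rpow_one _
    calc L * L ^ δ * L ^ δ ≤ L * L * L := by
          apply mul_le_mul _ h6 (by positivity) (by positivity)
          exact mul_le_mul_of_nonneg_left h6 hL0.le
      _ = L ^ 3 := by ring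
  have k4 : 6 * C * W / L ^ δ + W / L ^ δ ≤ W / 12800 := by
    rw [← add_div, div_le_div_iff₀ hLδ (by norm_num)]
    nlinarith
  have k5 : 2 * (x / L ^ 2) ≤ W / 12800 := by
    rw [hW, div_div]
    have h6 : L * L ^ δ * 12800 * 2 ≤ L ^ 2 := by
      have h7 : L ^ δ ≤ L ^ (1 / 2 : ℝ) :=
        Real.rpow_le_rpow_of_exponent_le hL1 (by rw [hδ]; linarith)
      have h8 : L ^ (1 / 2 : ℝ) * L ^ (1 / 2 : ℝ) = L := by
        rw [← Real.rpow_add hL0]
        norm_num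
      have h9 : 0 < L ^ (1 / 2 : ℝ) := by positivity
      have h10 : L ^ δ * 25600 ≤ L := by
        calc L ^ δ * 25600 ≤ L ^ (1 / 2 : ℝ) * L ^ (1 / 2 : ℝ) :=
              mul_le_mul h7 g3 (by norm_num) h9.le
          _ = L := h8
      nlinarith
    rw [← mul_div_assoc, div_le_div_iff₀ (by positivity) (by positivity)]
    nlinarith
  linarith

end Pool.Agent.NH18.AU
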