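import Pool.Agent.NH18.AU.C3
import Pool.Agent.H373R2.T7.PB3
import Pool.Agent.R330.AF.Fac

/-! Almost all `n`: the scale theorem. -/

set_option autoImplicit false

namespace Pool.Agent.NH18.AU

open Finset Filter
open Pool.Agent.H373R2.T7
open Pool.Agent.H373R2.T7.TB (l1_one)
open Pool.Agent.R330.AF (LL TB)

/-- the polynomial `(8 k + 3)² + (4 k + 2)²` -/
noncomputable def GP : Polynomial ℤ :=
  Polynomial.C 80 * Polynomial.X ^ 2 + Polynomial.C 64 * Polynomial.X + Polynomial.C 13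

lemma GP_deg : GP.natDegree = 2 := Polynomial.natDegree_quadratic (by norm_num)

lemma GP_lc : 0 < GP.leadingCoeff := by
  unfold GP
  rw [Polynomial.leadingCoeff_quadratic (by norm_num)]
  norm_num

lemma GP_eval (k : ℤ) : GP.eval k = 80 * k ^ 2 + 64 * k + 13 := by
  unfold GP
  simp

open Classical in
/-- the good `k` -/
noncomputable def gk (ε : ℝ) (X n : ℕ) : Finset ℕ :=
  (Icc 1 (xx X)).filter (fun k => 8 * k + 3 ∈ LL ⌊Real.log X ^ (1 - ε)⌋₊ (PA X) (PB X) ∧
    (((2 * n : ℕ) : ℤ) - GP.eval (k : ℤ)).toNat.Prime)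

open Classical in
/-- the weight -/
noncomputable def wk (ε : ℝ) (X k : ℕ) : ℝ :=
  if 8 * k + 3 ∈ LL ⌊Real.log X ^ (1 - ε)⌋₊ (PA X) (PB X) then 1 else 0

lemma wk_le (ε : ℝ) (X k : ℕ) : wk ε X k ≤ 1 := by
  unfold wk
  split_ifs <;> norm_num

lemma wk_nonneg (ε : ℝ) (X k : ℕ) : 0 ≤ wk ε X k := by
  unfold wk
  split_ifs <;> norm_num

lemma LL_mem {H a b P : ℕ} (h : P ∈ LL H a b) : a < P ∧ P ≤ b ∧ P.Prime ∧ P % 8 = 3 ∧
    ∀ h ∈ Icc 1 H, ¬ (4 * h * P + 1).Prime := by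
  unfold Pool.Agent.R330.AF.LL at h
  rw [mem_filter, mem_Ioc] at h
  exact ⟨h.1.1, h.1.2, h.2.1, h.2.2.1, h.2.2.2⟩

lemma PB_sq (X : ℕ) : 5 * PB X ^ 2 ≤ 7 * X := by
  unfold PB
  have h := Nat.sqrt_le' (7 * X / 5)
  omega

lemma PA_sq (X : ℕ) : 4 * X < 3 * PA X ^ 2 := by
  unfold PA
  have h := Nat.lt_succ_sqrt' (4 * X / 3)
  have h2 : 4 * X / 3 + 1 ≤ (Nat.sqrt (4 * X / 3) + 1) ^ 2 := h
  omega

lemma G_small (X n k : ℕ) (hX : 1000 ≤ X) (hn : 9 * X / 10 < n) (hk : 8 * k + 3 ≤ PB X) :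
    1 ≤ ((2 * n : ℕ) : ℤ) - GP.eval (k : ℤ) := by
  rw [GP_eval]
  have h1 := PB_sq X
  have h2 : (8 * k + 3) ^ 2 ≤ PB X ^ 2 := Nat.pow_le_pow_left hk 2
  have h3 : 5 * (8 * k + 3) ^ 2 ≤ 7 * X := by omega
  have h4 : 9 * X < 10 * n := by omega
  have h5 : k ≤ X / 20 := by
    by_contra hlt
    push Not at hlt
    have h6 : X < 20 * k + 20 := by omega
    nlinarith
  have h6 : 5 * (64 * k ^ 2 + 48 * k + 9) ≤ 7 * X := by
    calc 5 * (64 * k ^ 2 + 48 * k + 9) = 5 * (8 * k + 3) ^ 2 := by ring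
      _ ≤ 7 * X := h3
  have h7 : ((5 * (64 * k ^ 2 + 48 * k + 9) : ℕ) : ℤ) ≤ ((7 * X : ℕ) : ℤ) := by exact_mod_cast h6
  push_cast at h7 ⊢
  have h8 : (9 : ℤ) * X < 10 * n := by exact_mod_cast h4
  have h9 : (20 : ℤ) * k ≤ X := by
    have : 20 * k ≤ X := by omega
    exact_mod_cast this
  have h10 : (1000 : ℤ) ≤ X := by exact_mod_cast hX
  nlinarith

open Classical in
/-- the sum of the model -/
lemma model_sum (ε : ℝ) (X n z : ℕ) (hX : 1000 ≤ X) (hn : 9 * X / 10 < n) :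
    ((((LL ⌊Real.log X ^ (1 - ε)⌋₊ (PA X) (PB X)).filter
        (fun P => ∀ p ∈ (pz z).erase 2, ¬ Qn n p P)).card : ℕ) : ℝ) ≤
    ∑ k ∈ Icc 1 (xx X), wk ε X k * lamzI z (((2 * n : ℕ) : ℤ) - GP.eval (k : ℤ)) := by
  set H := ⌊Real.log X ^ (1 - ε)⌋₊ with hH
  set K : Finset ℕ := (Icc 1 (xx X)).filter (fun k => 8 * k + 3 ∈ (LL H (PA X) (PB X)).filter
        (fun P => ∀ p ∈ (pz z).erase 2, ¬ Qn n p P)) with hK
  have hterm : ∀ k : ℕ, 0 ≤ wk ε X k * lamzI z (((2 * n : ℕ) : ℤ) - GP.eval (k : ℤ)) := by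
    intro k
    apply mul_nonneg (wk_nonneg ε X k)
    unfold lamzI lamz
    have := (inv_pos.2 (Vz_pos z)).le
    split_ifs <;> first | exact le_rfl | exact this
  have h1 : ((K.card : ℕ) : ℝ) ≤
      ∑ k ∈ Icc 1 (xx X), wk ε X k * lamzI z (((2 * n : ℕ) : ℤ) - GP.eval (k : ℤ)) := by
    calc ((K.card : ℕ) : ℝ) = ∑ _k ∈ K, (1 : ℝ) := by rw [sum_const, nsmul_eq_mul, mul_one]
      _ ≤ ∑ k ∈ K, wk ε X k * lamzI z (((2 * n : ℕ) : ℤ) - GP.eval (k : ℤ)) := by
          apply sum_le_sum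
          intro k hk
          rw [hK, mem_filter, mem_filter] at hk
          obtain ⟨-, hLL, hQ⟩ := hk
          obtain ⟨a1, a2, a3, a4, a5⟩ := LL_mem hLL
          have hw : wk ε X k = 1 := by
            unfold wk
            rw [if_pos hLL]
          have hpos := G_small X n k hX hn a2
          rw [hw, one_mul]
          unfold lamzI lamz
          rw [if_pos hpos]
          have hcond : ∀ p ∈ pz z, ¬ p ∣ (((2 * n : ℕ) : ℤ) - GP.eval (k : ℤ)).toNat := by
            intro p hp hd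
            have hpp := (mem_pz.1 hp).2
            have hcast : ((((((2 * n : ℕ) : ℤ) - GP.eval (k : ℤ)).toNat) : ℕ) : ℤ) =
                ((2 * n : ℕ) : ℤ) - GP.eval (k : ℤ) := Int.toNat_of_nonneg (by omega)
            have hd' : (p : ℤ) ∣ ((2 * n : ℕ) : ℤ) - GP.eval (k : ℤ) := by
              rw [← hcast]
              exact_mod_cast hd
            rw [GP_eval] at hd'
            by_cases h2 : p = 2
            · subst h2
              push_cast at hd'
              have h3 : (2 : ℤ) ∣ 13 := by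
                have h4 : (2 : ℤ) ∣ 2 * (n - 40 * k ^ 2 - 32 * k) := Dvd.intro _ rfl
                have h5 := dvd_sub h4 hd'
                have e : 2 * ((n : ℤ) - 40 * k ^ 2 - 32 * k) -
                    (2 * n - (80 * k ^ 2 + 64 * k + 13)) = 13 := by ring
                rwa [e] at h5
              norm_num at h3
            · apply hQ p (mem_erase.2 ⟨h2, hp⟩)
              unfold Qn
              have e : 8 * (n : ℤ) - 4 * ((8 * k + 3 : ℕ) : ℤ) ^ 2 -
                  (((8 * k + 3 : ℕ) : ℤ) + 1) ^ 2 =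
                  (((2 * n : ℕ) : ℤ) - (80 * (k : ℤ) ^ 2 + 64 * k + 13)) * 4 := by
                push_cast
                ring
              rw [e]
              exact Dvd.dvd.mul_right hd' 4
          rw [if_pos hcond]
          rw [one_le_inv₀ (Vz_pos z)]
          exact Vz_le_one z
      _ ≤ _ := sum_le_sum_of_subset_of_nonneg (filter_subset _ _) (fun k _ _ => hterm k)
  refine le_trans ?_ h1
  have h2 : ((LL H (PA X) (PB X)).filter (fun P => ∀ p ∈ (pz z).erase 2, ¬ Qn n p P)).card ≤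
      K.card := by
    apply card_le_card_of_injOn (fun P => P / 8)
    · intro P hP
      rw [mem_coe] at hP
      have hP' := hP
      rw [mem_filter] at hP'
      obtain ⟨a1, a2, a3, a4, a5⟩ := LL_mem hP'.1
      have e : 8 * (P / 8) + 3 = P := by omega
      simp only
      rw [mem_coe, hK, mem_filter, mem_Icc, e]
      have hb := PB_le X
      have hx := xx_le X
      have hPx : (P : ℝ) ≤ xx X := by
        have h3 : (P : ℝ) ≤ PB X := by exact_mod_cast a2
        have h4 : (0 : ℝ) ≤ xx X := Nat.cast_nonneg _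
        linarith
      have hPx' : P ≤ xx X := by exact_mod_cast hPx
      have hP8 : 8 ≤ P := by
        have h3 := PA_sq X
        by_contra hlt
        push Not at hlt
        have h4 : PA X ≤ 6 := by omega
        have h5 : PA X ^ 2 ≤ 6 ^ 2 := Nat.pow_le_pow_left h4 2
        omega
      exact ⟨⟨by omega, by omega⟩, hP⟩
    · intro P hP P' hP' he
      rw [mem_coe, mem_filter] at hP hP'
      obtain ⟨a1, a2, a3, a4, a5⟩ := LL_mem hP.1
      obtain ⟨b1, b2, b3, b4, b5⟩ := LL_mem hP'.1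
      simp only at he
      omega
  exact_mod_cast h2

open Classical in
theorem scale (ε : ℝ) (hε : 0 < ε) (hε1 : ε ≤ 1) (U : ℕ) : ∃ X0 : ℕ, ∀ X : ℕ, X0 ≤ X →
    (((Icc 1 X).filter (fun n : ℕ => 9 * X / 10 < n ∧
      (((gk ε X n).card : ℕ) : ℝ) < xx X / (2 * Real.log (xx X) ^ 3))).card : ℝ) ≤
      X / Real.log X ^ U := by
  obtain ⟨B0, hl⟩ := l1_one GP (by rw [GP_deg]; norm_num) GP_lc 8 (by norm_num) (U + 4)
  obtain ⟨N1, hl⟩ := hl (B0 + 2)
  obtain ⟨X1, hmod⟩ := model ε hε hε1 (B0 + 2)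
  obtain ⟨n1, h1⟩ := ev_L' (2 ^ (U + 3) + 16)
  refine ⟨X1 + (N1 + n1 + 10) ^ 2 + n1 + 1000, ?_⟩
  intro X hX
  set m0 := N1 + n1 + 10 with hm0
  have hXm : m0 ^ 2 ≤ X := by omega
  have hsq : m0 ≤ Nat.sqrt X := by
    rw [Nat.le_sqrt']
    exact hXm
  have hxm : m0 ≤ xx X := by
    unfold xx
    omega
  have hX1000 : 1000 ≤ X := by omega
  have hxsq : xx X ^ 2 ≤ 16 * X := by
    unfold xx
    have h2 := Nat.sqrt_le' X
    nlinarith
  have hxsq2 : 4 * X ≤ xx X ^ 2 := by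
    unfold xx
    have h2 := Nat.lt_succ_sqrt' X
    have h3 : X + 1 ≤ (Nat.sqrt X + 1) ^ 2 := h2
    calc 4 * X ≤ 4 * (Nat.sqrt X + 1) ^ 2 := by omega
      _ = (2 * (Nat.sqrt X + 1)) ^ 2 := by ring
  have hLx := h1 (xx X) (by omega)
  have hLX := h1 X (by omega)
  have hlX := hl (xx X) (by omega) (2 * X) (by rw [GP_deg]; omega) (by rw [GP_deg]; omega)
  have hmodX := hmod X (by omega)
  have hXr : (1000 : ℝ) ≤ X := by exact_mod_cast hX1000
  have hX0 : (0 : ℝ) < X := by linarith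
  have hpow : (8 : ℝ) ≤ 2 ^ (U + 3) := by
    calc (8 : ℝ) = 2 ^ 3 := by norm_num
      _ ≤ 2 ^ (U + 3) := pow_le_pow_right₀ (by norm_num) (by omega)
  have hxr : (2 : ℝ) ≤ xx X := by exact_mod_cast (by omega : 2 ≤ xx X)
  set L := Real.log (xx X) with hLd
  have hL16 : 16 ≤ L := by linarith
  have hL1 : 1 ≤ L := by linarith
  have hL0 : 0 < L := by linarith
  have hlogX : Real.log X ≤ 2 * L := by
    calc Real.log X ≤ Real.log ((xx X : ℝ) ^ 2) := by
          apply Real.log_le_log hX0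
          have h2 : ((4 * X : ℕ) : ℝ) ≤ ((xx X ^ 2 : ℕ) : ℝ) := by exact_mod_cast hxsq2
          push_cast at h2
          linarith
      _ = 2 * L := by rw [Real.log_pow, hLd]; norm_num
  have hlog2X : Real.log ((2 * X : ℕ) : ℝ) ≤ 2 * L := by
    calc Real.log ((2 * X : ℕ) : ℝ) ≤ Real.log ((xx X : ℝ) ^ 2) := by
          apply Real.log_le_log
          · push_cast
            linarith
          · have h2 : ((4 * X : ℕ) : ℝ) ≤ ((xx X ^ 2 : ℕ) : ℝ) := by exact_mod_cast hxsq2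
            push_cast at h2 ⊢
            linarith
      _ = 2 * L := by rw [Real.log_pow, hLd]; norm_num
  obtain ⟨z, hz⟩ : ∃ z, z = ⌈L ^ (B0 + 1)⌉₊ := ⟨_, rfl⟩
  have hz1 : L ^ (B0 + 1) ≤ z := by rw [hz]; exact Nat.le_ceil _
  have hz2 : (z : ℝ) ≤ L ^ (B0 + 2) := by
    have h5 : (z : ℝ) < L ^ (B0 + 1) + 1 := by rw [hz]; exact Nat.ceil_lt_add_one (by positivity)
    have h6 : 1 ≤ L ^ (B0 + 1) := one_le_pow₀ hL1
    calc (z : ℝ) ≤ L ^ (B0 + 1) + 1 := h5.le
      _ ≤ L ^ (B0 + 1) * 2 := by linarith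
      _ ≤ L ^ (B0 + 1) * L := mul_le_mul_of_nonneg_left (by linarith) (by positivity)
      _ = L ^ (B0 + 2) := by rw [← pow_succ]
  have hzB0 : L ^ B0 ≤ z := (pow_le_pow_right₀ hL1 (by omega)).trans hz1
  have hzL : L ≤ z := by
    refine le_trans ?_ hz1
    calc L = L ^ 1 := (pow_one _).symm
      _ ≤ L ^ (B0 + 1) := pow_le_pow_right₀ hL1 (by omega)
  have hw : ∀ k ∈ Icc 1 (xx X), |wk ε X k| ≤ L := by
    intro k _
    rw [abs_of_nonneg (wk_nonneg ε X k)]
    exact (wk_le ε X k).trans hL1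
  have hb := hlX z hzB0 hz2 (wk ε X) hw
  have hx0 : (0 : ℝ) < xx X := by linarith
  have hcard := markov (Icc 1 (2 * X)) (fun N => |∑ k ∈ Icc 1 (xx X), wk ε X k *
      (lamP ((N : ℤ) - GP.eval (k : ℤ)) - lamzI z ((N : ℤ) - GP.eval (k : ℤ)))|)
    (fun N _ => abs_nonneg _) ((xx X : ℝ) / L ^ 3) (2 * X / L ^ (U + 1)) (by positivity) (by
      refine hb.trans (le_of_eq ?_)
      push_cast
      rw [show U + 4 = 3 + (U + 1) by ring, pow_add]
      field_simp)
  have hfinal : (2 : ℝ) * X / L ^ (U + 1) ≤ X / Real.log X ^ U := by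
    have hlX0 : 0 < Real.log X := by linarith
    have h2 : (Real.log X) ^ U ≤ 2 ^ U * L ^ U := by
      rw [← mul_pow]
      exact pow_le_pow_left₀ hlX0.le hlogX U
    rw [div_le_div_iff₀ (by positivity) (by positivity)]
    calc 2 * (X : ℝ) * Real.log X ^ U ≤ 2 * X * (2 ^ U * L ^ U) :=
          mul_le_mul_of_nonneg_left h2 (by positivity)
      _ = X * (2 ^ (U + 1) * L ^ U) := by rw [pow_succ]; ring
      _ ≤ X * (L * L ^ U) := by
          apply mul_le_mul_of_nonneg_left _ hX0.le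
          apply mul_le_mul_of_nonneg_right _ (by positivity)
          have h3 : (2 : ℝ) ^ (U + 1) ≤ 2 ^ (U + 3) := pow_le_pow_right₀ (by norm_num) (by omega)
          linarith
      _ = X * L ^ (U + 1) := by rw [pow_succ]; ring
  refine le_trans ?_ (hcard.trans hfinal)
  have hle : ((Icc 1 X).filter (fun n : ℕ => 9 * X / 10 < n ∧
      (((gk ε X n).card : ℕ) : ℝ) < xx X / (2 * L ^ 3))).card ≤
      ((Icc 1 (2 * X)).filter (fun N : ℕ => (xx X : ℝ) / L ^ 3 < |∑ k ∈ Icc 1 (xx X), wk ε X k *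
      (lamP ((N : ℤ) - GP.eval (k : ℤ)) - lamzI z ((N : ℤ) - GP.eval (k : ℤ)))|)).card := by
    apply card_le_card_of_injOn (fun n => 2 * n)
    · intro n hn
      rw [mem_coe, mem_filter, mem_Icc] at hn
      obtain ⟨⟨hn1, hn2⟩, hn9, hfew⟩ := hn
      simp only
      rw [mem_coe, mem_filter, mem_Icc]
      refine ⟨⟨by omega, by omega⟩, ?_⟩
      by_contra hcon
      push Not at hcon
      have hm1 := hmodX z hzL hz2 n
      have hm2 := model_sum ε X n z hX1000 hn9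
      have e1 : ∑ k ∈ Icc 1 (xx X), wk ε X k *
          (lamP (((2 * n : ℕ) : ℤ) - GP.eval (k : ℤ)) -
            lamzI z (((2 * n : ℕ) : ℤ) - GP.eval (k : ℤ))) =
          ∑ k ∈ Icc 1 (xx X), wk ε X k * lamP (((2 * n : ℕ) : ℤ) - GP.eval (k : ℤ)) -
          ∑ k ∈ Icc 1 (xx X), wk ε X k * lamzI z (((2 * n : ℕ) : ℤ) - GP.eval (k : ℤ)) := by
        rw [← sum_sub_distrib]
        apply sum_congr rfl
        intro k _
        ring
      rw [e1] at hcon
      have h5 := (abs_le.1 hcon).1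
      have h6 : ∑ k ∈ Icc 1 (xx X), wk ε X k * lamP (((2 * n : ℕ) : ℤ) - GP.eval (k : ℤ)) ≤
          (((gk ε X n).card : ℕ) : ℝ) * (2 * L) := by
        calc ∑ k ∈ Icc 1 (xx X), wk ε X k * lamP (((2 * n : ℕ) : ℤ) - GP.eval (k : ℤ)) ≤
            ∑ k ∈ Icc 1 (xx X), (if 8 * k + 3 ∈ LL ⌊Real.log X ^ (1 - ε)⌋₊ (PA X) (PB X) ∧
              (((2 * n : ℕ) : ℤ) - GP.eval (k : ℤ)).toNat.Prime then 2 * L else 0) := by
              apply sum_le_sum
              intro k _
              unfold wk lamP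
              by_cases c1 : 8 * k + 3 ∈ LL ⌊Real.log X ^ (1 - ε)⌋₊ (PA X) (PB X)
              · by_cases c2 : (((2 * n : ℕ) : ℤ) - GP.eval (k : ℤ)).toNat.Prime
                · rw [if_pos c1, if_pos c2, if_pos ⟨c1, c2⟩, one_mul]
                  refine le_trans (Real.log_le_log (by exact_mod_cast c2.pos) ?_) hlog2X
                  have h7 : (((2 * n : ℕ) : ℤ) - GP.eval (k : ℤ)).toNat ≤ 2 * X := by
                    rw [GP_eval]
                    have h8 : (0 : ℤ) ≤ 80 * (k : ℤ) ^ 2 + 64 * k + 13 := by positivity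
                    omega
                  exact_mod_cast h7
                · have c3 : ¬ (8 * k + 3 ∈ LL ⌊Real.log X ^ (1 - ε)⌋₊ (PA X) (PB X) ∧
                      (((2 * n : ℕ) : ℤ) - GP.eval (k : ℤ)).toNat.Prime) := fun h => c2 h.2
                  rw [if_neg c2, if_neg c3, mul_zero]
              · have c3 : ¬ (8 * k + 3 ∈ LL ⌊Real.log X ^ (1 - ε)⌋₊ (PA X) (PB X) ∧
                      (((2 * n : ℕ) : ℤ) - GP.eval (k : ℤ)).toNat.Prime) := fun h => c1 h.1
                rw [if_neg c1, if_neg c3, zero_mul]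
          _ = _ := by
              rw [← sum_filter, sum_const, nsmul_eq_mul]
              rfl
      have h7 : (xx X : ℝ) / L ^ 3 ≤ xx X / L ^ 2 := by
        apply div_le_div_of_nonneg_left hx0.le (by positivity)
        exact pow_le_pow_right₀ hL1 (by norm_num)
      have h8 : (xx X : ℝ) / L ^ 2 ≤ (((gk ε X n).card : ℕ) : ℝ) * (2 * L) := by linarith
      have h9 : (((gk ε X n).card : ℕ) : ℝ) * (2 * L) < xx X / (2 * L ^ 3) * (2 * L) :=
        mul_lt_mul_of_pos_right hfew (by positivity)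
      have h10 : (xx X : ℝ) / (2 * L ^ 3) * (2 * L) = xx X / L ^ 2 := by
        field_simp
      linarith
    · intro a _ b _ h
      simp only at h
      omega
  exact_mod_cast hle

end Pool.Agent.NH18.AU
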