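import Pool.Agent.NH18.AU.C4

/-! Almost all `n`: the general form. -/

set_option autoImplicit false

namespace Pool.Agent.NH18.AU

open Finset

/-- the scales -/
lemma cover (M n : ℕ) (h1 : M / 2 < n) (h2 : n ≤ M) :
    ∃ j ∈ range 7, 9 * ((fun m => 9 * m / 10)^[j] M) / 10 < n ∧ n ≤ (fun m => 9 * m / 10)^[j] M := by
  by_contra hcon
  push Not at hcon
  have g0 := hcon 0 (by simp)
  have g1 := hcon 1 (by simp)
  have g2 := hcon 2 (by simp)
  have g3 := hcon 3 (by simp)
  have g4 := hcon 4 (by simp)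
  have g5 := hcon 5 (by simp)
  have g6 := hcon 6 (by simp)
  simp only [Function.iterate_succ, Function.iterate_zero, Function.comp, id] at g0 g1 g2 g3 g4 g5 g6
  omega

lemma scale_ge (M j : ℕ) (hj : j ≤ 6) (hM : 1000 ≤ M) :
    M / 4 ≤ (fun m => 9 * m / 10)^[j] M ∧ (fun m => 9 * m / 10)^[j] M ≤ M := by
  interval_cases j <;>
    simp only [Function.iterate_succ, Function.iterate_zero, Function.comp, id] <;> omega

open Classical in
theorem general (a : ℝ) (ha0 : 0 ≤ a) (ha1 : a < 1) (Good : ℕ → Set (ℕ × ℕ × ℕ × ℕ))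
    (hG : ∀ X n : ℕ, Odd n → n ≤ X → (gk (1 - a) X n).card ≤ (Good n).ncard) (U : ℕ) :
    ∃ C : ℝ, 0 < C ∧ ∀ X : ℕ, 2 ≤ X →
    (((Icc 1 X).filter (fun n : ℕ => Odd n ∧
      ((Good n).ncard : ℝ) < √(n : ℝ) / Real.log n ^ 4)).card : ℝ) ≤
      C * (X / Real.log X ^ U) := by
  obtain ⟨X0, hsc⟩ := scale (1 - a) (by linarith) (by linarith) (U + 1)
  apply Pool.Agent.H373R2.T7.PB.dyadic (fun n : ℕ => Odd n ∧
      ((Good n).ncard : ℝ) < √(n : ℝ) / Real.log n ^ 4) U
  obtain ⟨n1, h1⟩ := Pool.Agent.H373R2.T7.ev_L' (7 * 2 ^ (U + 1) + 64)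
  obtain ⟨K, hK1, hK2⟩ : ∃ K : ℕ, 1000 ≤ K ∧ X0 + n1 ≤ K :=
    ⟨X0 + n1 + 1000, Nat.le_add_left _ _, Nat.le_add_right _ _⟩
  refine ⟨4 * K + 4, fun M hM => ?_⟩
  have hLM := h1 M (by omega)
  have hM0 : (0 : ℝ) < M := by exact_mod_cast (by omega : 0 < M)
  set LM := Real.log M with hLMd
  have hpow0 : (0 : ℝ) < 7 * 2 ^ (U + 1) := by positivity
  have hLM0 : 0 < LM := by linarith
  set g : ℕ → ℕ := fun m => 9 * m / 10 with hg
  -- one scale
  have hone : ∀ j ∈ range 7, (((Icc 1 (g^[j] M)).filter (fun n : ℕ => 9 * (g^[j] M) / 10 < n ∧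
      (Odd n ∧ ((Good n).ncard : ℝ) < √(n : ℝ) / Real.log n ^ 4))).card : ℝ) ≤
      2 ^ (U + 1) * (M / LM ^ (U + 1)) := by
    intro j hj
    rw [mem_range] at hj
    obtain ⟨s1, s2⟩ := scale_ge M j (by omega) (by omega)
    rw [← hg] at s1 s2
    obtain ⟨X, hX⟩ : ∃ X, X = g^[j] M := ⟨_, rfl⟩
    rw [← hX] at s1 s2 ⊢
    have hX0 : K ≤ X := by omega
    have hs := hsc X (by omega)
    have hLX := h1 X (by omega)
    have hXr : (1000 : ℝ) ≤ X := by exact_mod_cast (by omega : 1000 ≤ X)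
    have hXM : (X : ℝ) ≤ M := by exact_mod_cast s2
    have hLX0 : 0 < Real.log X := by linarith
    have hXM4 : (M : ℝ) / 8 ≤ X := by
      rw [div_le_iff₀ (by norm_num)]
      exact_mod_cast (by omega : M ≤ X * 8)
    have hLXM : LM / 2 ≤ Real.log X := by
      have h2 := Real.log_le_log (by positivity) hXM4
      rw [Real.log_div hM0.ne' (by norm_num), ← hLMd] at h2
      have h3 : Real.log 8 = 3 * Real.log 2 := by
        rw [show (8 : ℝ) = 2 ^ 3 by norm_num, Real.log_pow]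
        norm_num
      have h4 := Real.log_two_lt_d9
      rw [h3] at h2
      linarith
    have hbound : (X : ℝ) / Real.log X ^ (U + 1) ≤ 2 ^ (U + 1) * (M / LM ^ (U + 1)) := by
      calc (X : ℝ) / Real.log X ^ (U + 1) ≤ M / (LM / 2) ^ (U + 1) := by
            apply div_le_div₀ hM0.le hXM (by positivity)
            exact pow_le_pow_left₀ (by positivity) hLXM _
        _ = _ := by
            rw [div_pow]
            field_simp
    refine le_trans ?_ (hs.trans hbound)
    have hle : ((Icc 1 X).filter (fun n : ℕ => 9 * X / 10 < n ∧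
        (Odd n ∧ ((Good n).ncard : ℝ) < √(n : ℝ) / Real.log n ^ 4))).card ≤
        ((Icc 1 X).filter (fun n : ℕ => 9 * X / 10 < n ∧
          (((gk (1 - a) X n).card : ℕ) : ℝ) < xx X / (2 * Real.log (xx X) ^ 3))).card := by
      apply card_le_card
      intro n hn
      rw [mem_filter, mem_Icc] at hn ⊢
      obtain ⟨⟨hn1, hn2⟩, hn9, hodd, hfew⟩ := hn
      refine ⟨⟨hn1, hn2⟩, hn9, ?_⟩
      have h2 : (((gk (1 - a) X n).card : ℕ) : ℝ) ≤ ((Good n).ncard : ℝ) := by
        exact_mod_cast hG X n hodd hn2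
      refine lt_of_le_of_lt h2 (hfew.trans_le ?_)
      have hnX : (n : ℝ) ≤ X := by exact_mod_cast hn2
      have hX2n : (X : ℝ) / 2 ≤ n := by
        rw [div_le_iff₀ two_pos]
        exact_mod_cast (by omega : X ≤ n * 2)
      have hlogn : Real.log X / 2 ≤ Real.log n := by
        have h3 := Real.log_le_log (by positivity) hX2n
        rw [Real.log_div (by linarith) (by norm_num)] at h3
        have h4 := Real.log_two_lt_d9
        linarith
      have hx1 := xx_le X
      have hx2 := xx_ge X (by omega)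
      have hS0 : 0 < √(X : ℝ) := Real.sqrt_pos.2 (by linarith)
      have hxX : (xx X : ℝ) ≤ X := by
        have h3 : √(X : ℝ) * √(X : ℝ) = X := Real.mul_self_sqrt (by linarith)
        have h4 : (4 : ℝ) ≤ √(X : ℝ) := by
          rw [Real.le_sqrt (by norm_num) (by linarith)]
          linarith
        nlinarith
      have hx4 : (4 : ℝ) ≤ xx X := by
        have h4 : (4 : ℝ) ≤ √(X : ℝ) := by
          rw [Real.le_sqrt (by norm_num) (by linarith)]
          linarith
        linarith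
      have hL : Real.log (xx X) ≤ Real.log X := Real.log_le_log (by linarith) hxX
      have hL0 : 0 < Real.log (xx X) := Real.log_pos (by linarith)
      have hn4 : Real.log (xx X) ^ 3 ≤ Real.log n ^ 4 := by
        calc Real.log (xx X) ^ 3 ≤ Real.log X ^ 3 := pow_le_pow_left₀ hL0.le hL 3
          _ ≤ (Real.log X / 2) ^ 4 := by
              have h5 : (Real.log X / 2) ^ 4 = Real.log X ^ 3 * (Real.log X / 16) := by ring
              rw [h5]
              apply le_mul_of_one_le_right (by positivity)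
              linarith
          _ ≤ Real.log n ^ 4 := pow_le_pow_left₀ (by positivity) hlogn 4
      have hsn : √(n : ℝ) ≤ xx X / 2 := (Real.sqrt_le_sqrt hnX).trans hx1
      calc √(n : ℝ) / Real.log n ^ 4 ≤ (xx X / 2) / Real.log (xx X) ^ 3 :=
            div_le_div₀ (by positivity) hsn (by positivity) hn4
        _ = xx X / (2 * Real.log (xx X) ^ 3) := by
            field_simp
    exact_mod_cast hle
  have hsub : (Ioc (M / 2) M).filter (fun n : ℕ => Odd n ∧
      ((Good n).ncard : ℝ) < √(n : ℝ) / Real.log n ^ 4) ⊆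
      (range 7).biUnion (fun j => (Icc 1 (g^[j] M)).filter (fun n : ℕ =>
        9 * (g^[j] M) / 10 < n ∧ (Odd n ∧ ((Good n).ncard : ℝ) < √(n : ℝ) / Real.log n ^ 4))) := by
    intro n hn
    rw [mem_filter, mem_Ioc] at hn
    obtain ⟨⟨hn1, hn2⟩, hn3⟩ := hn
    obtain ⟨j, hj, hj1, hj2⟩ := cover M n hn1 hn2
    rw [mem_biUnion]
    refine ⟨j, hj, ?_⟩
    rw [mem_filter, mem_Icc]
    exact ⟨⟨by omega, hj2⟩, hj1, hn3⟩
  have hcard : (((Ioc (M / 2) M).filter (fun n : ℕ => Odd n ∧
      ((Good n).ncard : ℝ) < √(n : ℝ) / Real.log n ^ 4)).card : ℝ) ≤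
      ∑ j ∈ range 7, (((Icc 1 (g^[j] M)).filter (fun n : ℕ =>
        9 * (g^[j] M) / 10 < n ∧ (Odd n ∧ ((Good n).ncard : ℝ) < √(n : ℝ) / Real.log n ^ 4))).card : ℝ) := by
    have h2 := (card_le_card hsub).trans card_biUnion_le
    exact_mod_cast h2
  refine hcard.trans ((sum_le_sum hone).trans ?_)
  rw [sum_const, card_range, nsmul_eq_mul]
  have h3 : (7 : ℕ) * ((2 : ℝ) ^ (U + 1) * (M / LM ^ (U + 1))) =
      (7 * 2 ^ (U + 1) / LM) * (M / LM ^ U) := by
    rw [pow_succ LM U]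
    push_cast
    field_simp
  rw [h3]
  calc (7 * 2 ^ (U + 1) / LM) * (M / LM ^ U) ≤ 1 * (M / LM ^ U) := by
        apply mul_le_mul_of_nonneg_right _ (by positivity)
        rw [div_le_one hLM0]
        linarith
    _ = _ := one_mul _


end Pool.Agent.NH18.AU
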