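import Pool.Agent.NH18.AU.C5
import Pool.Agent.NH18.SP.S1

/-! Quadruples with `x + y = P`, `z + w = (P + 1) / 2`. -/

set_option autoImplicit false

namespace Pool.Agent.NH18.AU

open Finset

lemma two_squares (R : ℕ) (hR : R.Prime) (h4 : R % 4 = 1) :
    ∃ s t : ℕ, (2 * s + 1) ^ 2 + (2 * t) ^ 2 = R := by
  have := Fact.mk hR
  obtain ⟨a, b, hab⟩ := Nat.Prime.sq_add_sq (p := R) (by omega)
  rcases Nat.even_or_odd a with ha | ha <;> rcases Nat.even_or_odd b with hb | hb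
  · exfalso
    obtain ⟨a', rfl⟩ := ha
    obtain ⟨b', rfl⟩ := hb
    have : 4 * (a' ^ 2 + b' ^ 2) = R := by rw [← hab]; ring
    omega
  · obtain ⟨t, rfl⟩ := ha
    obtain ⟨s, rfl⟩ := hb
    exact ⟨s, t, by rw [← hab]; ring⟩
  · obtain ⟨s, rfl⟩ := ha
    obtain ⟨t, rfl⟩ := hb
    exact ⟨s, t, by rw [← hab]; ring⟩
  · exfalso
    obtain ⟨a', rfl⟩ := ha
    obtain ⟨b', rfl⟩ := hb
    have : 4 * (a' ^ 2 + a' + b' ^ 2 + b') + 2 = R := by rw [← hab]; ring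
    omega

lemma quad_exists (ε : ℝ) (X n k : ℕ) (hn : Odd n) (hnX : n ≤ X) (hk : k ∈ gk ε X n) :
    ∃ v : ℕ × ℕ × ℕ × ℕ, n = v.1 ^ 2 + v.2.1 ^ 2 + v.2.2.1 ^ 2 + v.2.2.2 ^ 2 ∧
      v.1 + v.2.1 = 8 * k + 3 ∧ v.2.2.1 + v.2.2.2 = 4 * k + 2 ∧ (8 * k + 3).Prime ∧
      √(X : ℝ) < ((8 * k + 3 : ℕ) : ℝ) ∧
      ∀ h ∈ Icc 1 ⌊Real.log X ^ (1 - ε)⌋₊, ¬ (4 * h * (8 * k + 3) + 1).Prime := by
  classical
  unfold gk at hk
  rw [mem_filter] at hk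
  obtain ⟨-, hLL, hR⟩ := hk
  obtain ⟨a1, a2, a3, a4, a5⟩ := LL_mem hLL
  rw [GP_eval] at hR
  obtain ⟨R, hRd⟩ : ∃ R, R = (((2 * n : ℕ) : ℤ) - (80 * (k : ℤ) ^ 2 + 64 * k + 13)).toNat := ⟨_, rfl⟩
  rw [← hRd] at hR
  have hR2 := hR.two_le
  have hRz : (R : ℤ) = ((2 * n : ℕ) : ℤ) - (80 * (k : ℤ) ^ 2 + 64 * k + 13) := by
    rw [hRd]
    apply Int.toNat_of_nonneg
    omega
  have hRn : R + (80 * k ^ 2 + 64 * k + 13) = 2 * n := by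
    have h1 : ((R + (80 * k ^ 2 + 64 * k + 13) : ℕ) : ℤ) = ((2 * n : ℕ) : ℤ) := by
      push_cast at hRz ⊢
      linarith
    exact_mod_cast h1
  have hR4 : R % 4 = 1 := by
    obtain ⟨m, hm⟩ := hn
    generalize k ^ 2 = K at hRn
    omega
  obtain ⟨s, t, hst⟩ := two_squares R hR hR4
  have hPA := PA_sq X
  have hlarge : R < (4 * k + 2) ^ 2 := by
    have h1 : PA X ^ 2 ≤ (8 * k + 3) ^ 2 := Nat.pow_le_pow_left a1.le 2
    have h2 : 4 * n < 3 * (8 * k + 3) ^ 2 := by omega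
    nlinarith
  have hs : 2 * s + 1 < 4 * k + 2 := by
    by_contra hcon
    push Not at hcon
    have := Nat.pow_le_pow_left hcon 2
    nlinarith
  have ht : 2 * t < 4 * k + 2 := by
    by_contra hcon
    push Not at hcon
    have := Nat.pow_le_pow_left hcon 2
    nlinarith
  obtain ⟨a', ha'⟩ : ∃ a', a' + s = 4 * k + 1 := ⟨4 * k + 1 - s, by omega⟩
  obtain ⟨b', hb'⟩ : ∃ b', b' + t = 2 * k + 1 := ⟨2 * k + 1 - t, by omega⟩
  refine ⟨(a' + 2 * s + 1, a', b' + 2 * t, b'), ?_, by simp only; omega, by simp only; omega, a3,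
    (PA_ge X).trans_lt (by exact_mod_cast a1), a5⟩
  simp only
  have e1 : 8 * k + 3 = 2 * (a' + s) + 1 := by omega
  have e2 : 4 * k + 2 = 2 * (b' + t) := by omega
  have e3 : 2 * n = 2 * ((a' + 2 * s + 1) ^ 2 + a' ^ 2 + (b' + 2 * t) ^ 2 + b' ^ 2) := by
    calc 2 * n = ((2 * s + 1) ^ 2 + (2 * t) ^ 2) + ((8 * k + 3) ^ 2 + (4 * k + 2) ^ 2) := by
          rw [hst, ← hRn]
          ring
      _ = _ := by
          rw [e1, e2]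
          ring
  omega

/-- the quadruples are counted by `gk` -/
lemma card_le_of (ε : ℝ) (X n : ℕ) (hn : Odd n) (hnX : n ≤ X) (G : Set (ℕ × ℕ × ℕ × ℕ)) (hGf : G.Finite)
    (hG : ∀ (k : ℕ) (v : ℕ × ℕ × ℕ × ℕ), n = v.1 ^ 2 + v.2.1 ^ 2 + v.2.2.1 ^ 2 + v.2.2.2 ^ 2 →
      v.1 + v.2.1 = 8 * k + 3 → v.2.2.1 + v.2.2.2 = 4 * k + 2 → (8 * k + 3).Prime →
      √(X : ℝ) < ((8 * k + 3 : ℕ) : ℝ) → v ∈ G) :
    (gk ε X n).card ≤ G.ncard := by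
  classical
  have h : ∀ k : ℕ, ∃ v : ℕ × ℕ × ℕ × ℕ, k ∈ gk ε X n → (v ∈ G ∧ v.1 + v.2.1 = 8 * k + 3) := by
    intro k
    by_cases hk : k ∈ gk ε X n
    · obtain ⟨v, h1, h2, h3, h4, h5, -⟩ := quad_exists ε X n k hn hnX hk
      exact ⟨v, fun _ => ⟨hG k v h1 h2 h3 h4 h5, h2⟩⟩
    · exact ⟨0, fun h => absurd h hk⟩
  choose f hf using h
  rw [← Set.ncard_coe_finset]
  apply Set.ncard_le_ncard_of_injOn f (ht := hGf)
  · intro k hk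
    exact (hf k (mem_coe.1 hk)).1
  · intro k hk k' hk' he
    have h1 := (hf k (mem_coe.1 hk)).2
    have h2 := (hf k' (mem_coe.1 hk')).2
    rw [he] at h1
    omega

end Pool.Agent.NH18.AU
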